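import Pool.Agent.H770Bary.Defs

set_option autoImplicit false

/-! Existence of optimal couplings for the barycenter problem (Prokhorov). -/

namespace Pool.Agent.H770Bary

open MeasureTheory ProbabilityTheory Filter Topology Set
open scoped ENNReal NNReal BoundedContinuousFunction

/-- Lower semicontinuity of `π ↦ ∫ g dπ` for continuous `g ≥ 0`. -/
theorem lsc_lintegral {X : Type*} [TopologicalSpace X] [MeasurableSpace X] [OpensMeasurableSpace X]
    (g : X → ℝ≥0) (hg : Continuous g) :
    LowerSemicontinuous (fun π : ProbabilityMeasure X => ∫⁻ x, (g x : ℝ≥0∞) ∂(π : Measure X)) := by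
  let F : ℕ → X →ᵇ ℝ≥0 := fun k => BoundedContinuousFunction.mkOfBound
    ⟨fun x => min (g x) (k : ℝ≥0), hg.min continuous_const⟩ k (by
      intro x y
      simp only [ContinuousMap.coe_mk]
      rw [NNReal.dist_eq]
      have h1 : ((min (g x) (k : ℝ≥0) : ℝ≥0) : ℝ) ≤ k := by
        have := min_le_right (g x) (k : ℝ≥0); exact_mod_cast this
      have h2 : ((min (g y) (k : ℝ≥0) : ℝ≥0) : ℝ) ≤ k := by
        have := min_le_right (g y) (k : ℝ≥0); exact_mod_cast this
      have h3 : (0 : ℝ) ≤ ((min (g x) (k : ℝ≥0) : ℝ≥0) : ℝ) := NNReal.coe_nonneg _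
      have h4 : (0 : ℝ) ≤ ((min (g y) (k : ℝ≥0) : ℝ≥0) : ℝ) := NNReal.coe_nonneg _
      rw [abs_le]; constructor <;> linarith)
  have hF : ∀ k x, ((F k x : ℝ≥0) : ℝ≥0∞) = min (g x : ℝ≥0∞) (k : ℝ≥0∞) := by
    intro k x
    show (((min (g x) (k : ℝ≥0) : ℝ≥0)) : ℝ≥0∞) = _
    rw [ENNReal.coe_min]; simp
  have hsup : ∀ π : ProbabilityMeasure X, ∫⁻ x, (g x : ℝ≥0∞) ∂(π : Measure X)
      = ⨆ k : ℕ, ∫⁻ x, (F k x : ℝ≥0∞) ∂(π : Measure X) := by
    intro π
    rw [← lintegral_iSup]
    · refine lintegral_congr fun x => ?_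
      apply le_antisymm
      · obtain ⟨k, hk⟩ := exists_nat_ge (g x)
        refine le_iSup_of_le k ?_
        rw [hF]
        apply le_min le_rfl
        exact_mod_cast hk
      · refine iSup_le fun k => ?_
        rw [hF]; exact min_le_left _ _
    · intro k
      exact ((F k).continuous.measurable).coe_nnreal_ennreal
    · intro k l hkl x
      simp only [hF]
      exact min_le_min le_rfl (by exact_mod_cast hkl)
  simp_rw [hsup]
  refine lowerSemicontinuous_iSup fun k => ?_
  exact (ProbabilityMeasure.continuous_lintegral_boundedContinuousFunction (F k)).lowerSemicontinuous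

variable {E : Type*} [NormedAddCommGroup E] [ProperSpace E] [MeasurableSpace E]
  [BorelSpace E] [SecondCountableTopology E]

/-- The quadratic cost. -/
noncomputable def cost (π : Measure (E × E)) : ℝ≥0∞ := ∫⁻ p, ENNReal.ofReal (‖p.1 - p.2‖ ^ 2) ∂π

omit [SecondCountableTopology E] in
/-- A set of measures with uniformly bounded second moments is tight. -/
theorem tight_of_moment (M : ℝ≥0∞) (hM : M ≠ ⊤) :
    IsTightMeasureSet {m : Measure E | ∫⁻ x, ENNReal.ofReal (‖x‖ ^ 2) ∂m ≤ M} := by
  rw [isTightMeasureSet_iff_exists_isCompact_measure_compl_le]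
  intro ε hε
  -- choose r with M / r^2 ≤ ε
  obtain ⟨r, hr0, hr⟩ : ∃ r : ℝ, 0 < r ∧ M ≤ ε * ENNReal.ofReal (r ^ 2) := by
    by_cases h : ε = ⊤
    · refine ⟨1, one_pos, ?_⟩
      simp [h]
    · refine ⟨M.toReal / ε.toReal + 1, by positivity, ?_⟩
      have he : 0 < ε.toReal := ENNReal.toReal_pos hε.ne' h
      have hm : 0 ≤ M.toReal := ENNReal.toReal_nonneg
      have h5 : ENNReal.ofReal (ε.toReal * (M.toReal / ε.toReal + 1) ^ 2) =
          ε * ENNReal.ofReal ((M.toReal / ε.toReal + 1) ^ 2) := by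
        rw [ENNReal.ofReal_mul he.le, ENNReal.ofReal_toReal h]
      have h6 : M = ENNReal.ofReal M.toReal := (ENNReal.ofReal_toReal hM).symm
      rw [← h5]
      refine h6.le.trans (ENNReal.ofReal_le_ofReal ?_)
      have h1 : M.toReal = ε.toReal * (M.toReal / ε.toReal) := by field_simp
      have h2 : M.toReal / ε.toReal ≤ (M.toReal / ε.toReal + 1) ^ 2 := by
        have : 0 ≤ M.toReal / ε.toReal := by positivity
        nlinarith
      calc M.toReal = ε.toReal * (M.toReal / ε.toReal) := h1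
        _ ≤ ε.toReal * (M.toReal / ε.toReal + 1) ^ 2 := by gcongr
  refine ⟨Metric.closedBall 0 r, isCompact_closedBall _ _, fun m hm => ?_⟩
  have hpos : 0 < ENNReal.ofReal (r ^ 2) := ENNReal.ofReal_pos.2 (by positivity)
  have h1 : ENNReal.ofReal (r ^ 2) * m (Metric.closedBall 0 r)ᶜ ≤ M := by
    calc ENNReal.ofReal (r ^ 2) * m (Metric.closedBall 0 r)ᶜ
        ≤ ENNReal.ofReal (r ^ 2) * m {x | ENNReal.ofReal (r ^ 2) ≤ ENNReal.ofReal (‖x‖ ^ 2)} := by
          gcongr
          intro x hx
          simp only [mem_compl_iff, Metric.mem_closedBall, dist_zero_right, not_le] at hx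
          show ENNReal.ofReal (r ^ 2) ≤ ENNReal.ofReal (‖x‖ ^ 2)
          apply ENNReal.ofReal_le_ofReal
          gcongr
      _ ≤ ∫⁻ x, ENNReal.ofReal (‖x‖ ^ 2) ∂m := by
          apply mul_meas_ge_le_lintegral
          exact (continuous_norm.pow 2).measurable.ennreal_ofReal
      _ ≤ M := hm
  have h2 : ENNReal.ofReal (r ^ 2) * m (Metric.closedBall 0 r)ᶜ ≤ ENNReal.ofReal (r ^ 2) * ε := by
    rw [mul_comm _ ε]; exact h1.trans hr
  exact (ENNReal.mul_le_mul_iff_right hpos.ne' ENNReal.ofReal_ne_top).1 h2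

omit [ProperSpace E] [MeasurableSpace E] [BorelSpace E] [SecondCountableTopology E] in
theorem sq_norm_le (x y : E) : ‖x‖ ^ 2 ≤ 2 * ‖x - y‖ ^ 2 + 2 * ‖y‖ ^ 2 := by
  have h : ‖x‖ ≤ ‖x - y‖ + ‖y‖ := by
    have := norm_add_le (x - y) y
    simpa using this
  have h0 : 0 ≤ ‖x‖ := norm_nonneg x
  nlinarith [sq_nonneg (‖x - y‖ - ‖y‖), norm_nonneg (x - y), norm_nonneg y]

omit [ProperSpace E] in
/-- Second moment of the first marginal in terms of the cost and of the second marginal. -/
theorem moment_fst_le (π : Measure (E × E)) :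
    ∫⁻ p, ENNReal.ofReal (‖p.1‖ ^ 2) ∂π ≤ 2 * cost π + 2 * ∫⁻ p, ENNReal.ofReal (‖p.2‖ ^ 2) ∂π := by
  have hm1 : Measurable fun p : E × E => ENNReal.ofReal (‖p.1 - p.2‖ ^ 2) :=
    ((continuous_fst.sub continuous_snd).norm.pow 2).measurable.ennreal_ofReal
  have hm2 : Measurable fun p : E × E => ENNReal.ofReal (‖p.2‖ ^ 2) :=
    (continuous_snd.norm.pow 2).measurable.ennreal_ofReal
  rw [cost, ← lintegral_const_mul _ hm1, ← lintegral_const_mul _ hm2, ← lintegral_add_left (hm1.const_mul 2)]
  refine lintegral_mono fun p => ?_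
  have h := sq_norm_le p.1 p.2
  calc ENNReal.ofReal (‖p.1‖ ^ 2) ≤ ENNReal.ofReal (2 * ‖p.1 - p.2‖ ^ 2 + 2 * ‖p.2‖ ^ 2) :=
        ENNReal.ofReal_le_ofReal h
    _ = 2 * ENNReal.ofReal (‖p.1 - p.2‖ ^ 2) + 2 * ENNReal.ofReal (‖p.2‖ ^ 2) := by
        rw [ENNReal.ofReal_add (by positivity) (by positivity), ENNReal.ofReal_mul (by norm_num),
          ENNReal.ofReal_mul (by norm_num)]
        simp

/-- Existence of optimal couplings for the barycenter functional. -/
theorem exists_min {N : ℕ} [NeZero N] (w : Fin N → ℝ) (hw : ∀ i, 0 < w i) (μ : Fin N → Measure E)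
    (hμ : ∀ i, IsProbabilityMeasure (μ i))
    (hμ2 : ∀ i, ∫⁻ x, ENNReal.ofReal (‖x‖ ^ 2) ∂(μ i) < ⊤) :
    ∃ (m : Measure E) (π : Fin N → Measure (E × E)), IsProbabilityMeasure m ∧
      (∀ i, (π i).map Prod.fst = m ∧ (π i).map Prod.snd = μ i) ∧
      (∑ i, ENNReal.ofReal (w i) * cost (π i) < ⊤) ∧
      ∀ (ν : Measure E) (π' : Fin N → Measure (E × E)), IsProbabilityMeasure ν →
        (∀ i, (π' i).map Prod.fst = ν ∧ (π' i).map Prod.snd = μ i) →
        ∑ i, ENNReal.ofReal (w i) * cost (π i) ≤ ∑ i, ENNReal.ofReal (w i) * cost (π' i) := by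
  classical
  let X := Fin N → ProbabilityMeasure (E × E)
  let F : X → ℝ≥0∞ := fun π => ∑ i, ENNReal.ofReal (w i) * cost ((π i : Measure (E × E)))
  -- lower semicontinuity
  have hF : LowerSemicontinuous F := by
    have h1 : F = fun π => ∑ i, ∫⁻ p, ((Real.toNNReal (w i * ‖p.1 - p.2‖ ^ 2) : ℝ≥0) : ℝ≥0∞)
        ∂((π i : Measure (E × E))) := by
      funext π
      refine Finset.sum_congr rfl fun i _ => ?_
      have hcm : Measurable fun p : E × E => ENNReal.ofReal (‖p.1 - p.2‖ ^ 2) :=
        ((continuous_fst.sub continuous_snd).norm.pow 2).measurable.ennreal_ofReal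
      rw [cost, ← lintegral_const_mul _ hcm]
      refine lintegral_congr fun p => ?_
      rw [← ENNReal.ofReal_mul (hw i).le]
      rfl
    rw [h1]
    apply lowerSemicontinuous_sum
    intro i _
    have h2 := lsc_lintegral (X := E × E) (fun p => Real.toNNReal (w i * ‖p.1 - p.2‖ ^ 2))
      (continuous_real_toNNReal.comp
        (continuous_const.mul ((continuous_fst.sub continuous_snd).norm.pow 2)))
    exact h2.comp (continuous_apply i)
  -- the constraint set
  have fstc : Continuous (Prod.fst : E × E → E) := continuous_fst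
  have sndc : Continuous (Prod.snd : E × E → E) := continuous_snd
  let i0 : Fin N := 0
  let pm : Fin N → ProbabilityMeasure E := fun i => ⟨μ i, hμ i⟩
  let S0 : Set X := {π | ∀ i, (π i).map fstc.measurable.aemeasurable = (π i0).map fstc.measurable.aemeasurable ∧
    (π i).map sndc.measurable.aemeasurable = pm i}
  have hS0 : IsClosed S0 := by
    have : S0 = ⋂ i, ({π : X | (π i).map fstc.measurable.aemeasurable = (π i0).map fstc.measurable.aemeasurable} ∩
      {π : X | (π i).map sndc.measurable.aemeasurable = pm i}) := by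
      ext π; simp [S0]
    rw [this]
    refine isClosed_iInter fun i => IsClosed.inter ?_ ?_
    · exact isClosed_eq ((ProbabilityMeasure.continuous_map fstc).comp (continuous_apply i))
        ((ProbabilityMeasure.continuous_map fstc).comp (continuous_apply i0))
    · exact isClosed_eq ((ProbabilityMeasure.continuous_map sndc).comp (continuous_apply i))
        continuous_const
  -- a reference point
  let ref : X := fun i => ⟨(Measure.dirac (0 : E)).prod (μ i), by
    have := hμ i; infer_instance⟩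
  have href0 : ref ∈ S0 := by
    intro i
    have h1 := hμ i
    have h2 := hμ i0
    constructor
    · apply Subtype.ext
      show Measure.map Prod.fst ((Measure.dirac (0 : E)).prod (μ i)) =
        Measure.map Prod.fst ((Measure.dirac (0 : E)).prod (μ i0))
      rw [Measure.map_fst_prod, Measure.map_fst_prod]
      simp
    · apply Subtype.ext
      show Measure.map Prod.snd ((Measure.dirac (0 : E)).prod (μ i)) = μ i
      rw [Measure.map_snd_prod]
      simp
  have hrefF : F ref < ⊤ := by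
    apply ENNReal.sum_lt_top.2
    intro i _
    apply ENNReal.mul_lt_top ENNReal.ofReal_lt_top
    show cost ((Measure.dirac (0 : E)).prod (μ i)) < ⊤
    have h1 := hμ i
    rw [cost, lintegral_prod _ (by
      exact ((continuous_fst.sub continuous_snd).norm.pow 2).measurable.ennreal_ofReal.aemeasurable)]
    rw [lintegral_dirac' _ (by
      apply Measurable.lintegral_prod_right'
        (f := fun p : E × E => ENNReal.ofReal (‖p.1 - p.2‖ ^ 2))
      exact ((continuous_fst.sub continuous_snd).norm.pow 2).measurable.ennreal_ofReal)]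
    simpa using hμ2 i
  let S : Set X := S0 ∩ {π | F π ≤ F ref}
  have hSne : S.Nonempty := ⟨ref, href0, show F ref ≤ F ref from le_rfl⟩
  have hSclosed : IsClosed S := hS0.inter (hF.isClosed_preimage (F ref))
  -- compactness
  let M : ℝ≥0∞ := 2 * ((ENNReal.ofReal (w i0))⁻¹ * F ref) + 2 * ∫⁻ x, ENNReal.ofReal (‖x‖ ^ 2) ∂(μ i0)
  have hMtop : M ≠ ⊤ := by
    apply ENNReal.add_ne_top.2
    constructor
    · apply ENNReal.mul_ne_top (by simp)
      apply ENNReal.mul_ne_top _ hrefF.ne
      simp [hw i0]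
    · exact ENNReal.mul_ne_top (by simp) (hμ2 i0).ne
  have hfst : ∀ π ∈ S, ∀ i, ∫⁻ x, ENNReal.ofReal (‖x‖ ^ 2) ∂((π i : Measure (E × E)).map Prod.fst) ≤ M := by
    intro π hπ i
    have h1 : (π i : Measure (E × E)).map Prod.fst = (π i0 : Measure (E × E)).map Prod.fst :=
      congrArg Subtype.val (hπ.1 i).1
    have h2 : (π i0 : Measure (E × E)).map Prod.snd = μ i0 := congrArg Subtype.val (hπ.1 i0).2
    have hmm : Measurable fun x : E => ENNReal.ofReal (‖x‖ ^ 2) :=
      (continuous_norm.pow 2).measurable.ennreal_ofReal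
    rw [h1, lintegral_map hmm measurable_fst]
    refine (moment_fst_le _).trans ?_
    have h3 : ∫⁻ p, ENNReal.ofReal (‖p.2‖ ^ 2) ∂(π i0 : Measure (E × E)) =
        ∫⁻ x, ENNReal.ofReal (‖x‖ ^ 2) ∂(μ i0) := by
      rw [← h2, lintegral_map hmm measurable_snd]
    rw [h3]
    have h4 : ENNReal.ofReal (w i0) * cost (π i0 : Measure (E × E)) ≤ F ref := by
      refine le_trans ?_ hπ.2
      exact Finset.single_le_sum (f := fun i => ENNReal.ofReal (w i) * cost ((π i : Measure (E × E))))
        (fun _ _ => zero_le) (Finset.mem_univ i0)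
    have h5 : ENNReal.ofReal (w i0) ≠ 0 := by simp [hw i0]
    have h6 : cost (π i0 : Measure (E × E)) ≤ (ENNReal.ofReal (w i0))⁻¹ * F ref := by
      calc cost (π i0 : Measure (E × E))
          = (ENNReal.ofReal (w i0))⁻¹ * (ENNReal.ofReal (w i0) * cost (π i0 : Measure (E × E))) := by
            rw [← mul_assoc, ENNReal.inv_mul_cancel h5 ENNReal.ofReal_ne_top, one_mul]
        _ ≤ (ENNReal.ofReal (w i0))⁻¹ * F ref := by gcongr
    show 2 * cost (π i0 : Measure (E × E)) + 2 * ∫⁻ x, ENNReal.ofReal (‖x‖ ^ 2) ∂(μ i0) ≤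
      2 * ((ENNReal.ofReal (w i0))⁻¹ * F ref) + 2 * ∫⁻ x, ENNReal.ofReal (‖x‖ ^ 2) ∂(μ i0)
    gcongr
  let K : Fin N → Set (ProbabilityMeasure (E × E)) := fun i =>
    {p | ∫⁻ x, ENNReal.ofReal (‖x‖ ^ 2) ∂((p : Measure (E × E)).map Prod.fst) ≤ M ∧
      (p : Measure (E × E)).map Prod.snd = μ i}
  have hK : ∀ i, IsCompact (closure (K i)) := by
    intro i
    apply isCompact_closure_of_isTightMeasureSet
    apply IsTightMeasureSet.prodMk
    · refine (tight_of_moment M hMtop).subset ?_
      rintro _ ⟨_, ⟨p, hp, rfl⟩, rfl⟩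
      exact hp.1
    · have := hμ i
      refine (isTightMeasureSet_singleton (μ := μ i)).subset ?_
      rintro _ ⟨_, ⟨p, hp, rfl⟩, rfl⟩
      exact hp.2
  have hSK : S ⊆ Set.univ.pi (fun i => closure (K i)) := by
    intro π hπ i _
    apply subset_closure
    exact ⟨hfst π hπ i, congrArg Subtype.val (hπ.1 i).2⟩
  have hScomp : IsCompact S :=
    (isCompact_univ_pi hK).of_isClosed_subset hSclosed hSK
  obtain ⟨π, hπS, hπmin⟩ := LowerSemicontinuousOn.exists_isMinOn hSne hScomp
    (hF.lowerSemicontinuousOn _)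
  refine ⟨(π i0 : Measure (E × E)).map Prod.fst, fun i => (π i : Measure (E × E)), ?_, ?_, ?_, ?_⟩
  · exact Measure.isProbabilityMeasure_map measurable_fst.aemeasurable
  · intro i
    exact ⟨congrArg Subtype.val (hπS.1 i).1, congrArg Subtype.val (hπS.1 i).2⟩
  · exact lt_of_le_of_lt hπS.2 hrefF
  · intro ν π' hν hπ'
    have hprob : ∀ i, IsProbabilityMeasure (π' i) := by
      intro i
      constructor
      have h := (hπ' i).1
      have h1 : ν Set.univ = 1 := hν.measure_univ
      rw [← h, Measure.map_apply measurable_fst MeasurableSet.univ] at h1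
      simpa using h1
    let π2 : X := fun i => ⟨π' i, hprob i⟩
    have hπ2 : π2 ∈ S0 := by
      intro i
      constructor
      · apply Subtype.ext
        show (π' i).map Prod.fst = (π' i0).map Prod.fst
        rw [(hπ' i).1, (hπ' i0).1]
      · apply Subtype.ext
        exact (hπ' i).2
    show F π ≤ F π2
    by_cases hle : F π2 ≤ F ref
    · exact hπmin ⟨hπ2, hle⟩
    · exact hπS.2.trans (not_le.1 hle).le

end Pool.Agent.H770Bary
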