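import Pool.Agent.H770Bary.Defs
import Pool.Agent.H770Bary.Exist

set_option autoImplicit false

/-! From minimal couplings to barycenters. -/

namespace Pool.Agent.H770Bary

open MeasureTheory ProbabilityTheory Filter Topology Set
open scoped ENNReal NNReal RealInnerProductSpace ContDiff

theorem isBarycenter_of_min {n N : ℕ} (w : Fin N → ℝ) (hw : ∀ i, 0 < w i)
    (μ : Fin N → Measure (EuclideanSpace ℝ (Fin n))) (m : Measure (EuclideanSpace ℝ (Fin n)))
    (π : Fin N → Measure (EuclideanSpace ℝ (Fin n) × EuclideanSpace ℝ (Fin n)))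
    (hm : IsProbabilityMeasure m)
    (hπ : ∀ i, (π i).map Prod.fst = m ∧ (π i).map Prod.snd = μ i)
    (hfin : ∑ i, ENNReal.ofReal (w i) * cost (π i) < ⊤)
    (hmin : ∀ (ν : Measure (EuclideanSpace ℝ (Fin n)))
      (π' : Fin N → Measure (EuclideanSpace ℝ (Fin n) × EuclideanSpace ℝ (Fin n))),
      IsProbabilityMeasure ν → (∀ i, (π' i).map Prod.fst = ν ∧ (π' i).map Prod.snd = μ i) →
        ∑ i, ENNReal.ofReal (w i) * cost (π i) ≤ ∑ i, ENNReal.ofReal (w i) * cost (π' i)) :
    IsBarycenter w μ m := by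
  have hle : ∑ i, ENNReal.ofReal (w i) * W2sq m (μ i) ≤ ∑ i, ENNReal.ofReal (w i) * cost (π i) := by
    refine Finset.sum_le_sum fun i _ => ?_
    gcongr
    exact iInf₂_le (π i) (hπ i)
  refine ⟨hm, lt_of_le_of_lt hle hfin, fun ν hν => ?_⟩
  refine hle.trans ?_
  by_cases htop : ∃ i, W2sq ν (μ i) = ⊤
  · obtain ⟨i, hi⟩ := htop
    have : ∑ i, ENNReal.ofReal (w i) * W2sq ν (μ i) = ⊤ := by
      rw [ENNReal.sum_eq_top]
      refine ⟨i, Finset.mem_univ i, ?_⟩
      rw [hi]
      exact ENNReal.mul_top (ENNReal.ofReal_pos.2 (hw i)).ne'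
    rw [this]
    exact le_top
  · push Not at htop
    have key : ∀ ε : ℝ≥0, 0 < ε → ∑ i, ENNReal.ofReal (w i) * cost (π i) ≤
        ∑ i, ENNReal.ofReal (w i) * W2sq ν (μ i) + (∑ i, ENNReal.ofReal (w i)) * ε := by
      intro ε hε
      have hch : ∀ i, ∃ π' : Measure (EuclideanSpace ℝ (Fin n) × EuclideanSpace ℝ (Fin n)),
          (π'.map Prod.fst = ν ∧ π'.map Prod.snd = μ i) ∧ cost π' ≤ W2sq ν (μ i) + ε := by
        intro i
        have h1 : W2sq ν (μ i) < W2sq ν (μ i) + ε :=
          ENNReal.lt_add_right (htop i) (by exact_mod_cast hε.ne')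
        conv_lhs at h1 => rw [W2sq]
        rw [iInf_lt_iff] at h1
        obtain ⟨π', h2⟩ := h1
        rw [iInf_lt_iff] at h2
        obtain ⟨h3, h4⟩ := h2
        exact ⟨π', h3, h4.le⟩
      choose π' h1 h2 using hch
      refine (hmin ν π' hν h1).trans ?_
      rw [Finset.sum_mul, ← Finset.sum_add_distrib]
      refine Finset.sum_le_sum fun i _ => ?_
      rw [← mul_add]
      gcongr
      exact h2 i
    have hS : (∑ i, ENNReal.ofReal (w i)) ≠ ⊤ := by
      rw [ENNReal.sum_ne_top]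
      intro i _
      exact ENNReal.ofReal_ne_top
    refine ENNReal.le_of_forall_pos_le_add fun ε hε _ => ?_
    -- choose a smaller parameter
    set S : ℝ≥0 := (∑ i, ENNReal.ofReal (w i)).toNNReal with hSdef
    have hS2 : (∑ i, ENNReal.ofReal (w i)) = (S : ℝ≥0∞) := (ENNReal.coe_toNNReal hS).symm
    have h3 := key (ε / (S + 1)) (by positivity)
    refine h3.trans ?_
    gcongr
    rw [hS2, ← ENNReal.coe_mul]
    norm_cast
    rw [mul_div_assoc', div_le_iff₀ (by positivity)]
    have : S * ε ≤ ε * (S + 1) := by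
      rw [mul_comm, mul_add, mul_one]
      exact le_self_add
    exact this

end Pool.Agent.H770Bary
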