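import Pool.Agent.H770Bary.Exist

set_option autoImplicit false

/-! Product Gaussians on `ℝ⁴` with a density; basic measure-theoretic facts. -/

namespace Pool.Agent.H770Bary

open MeasureTheory ProbabilityTheory Filter Topology Set
open scoped ENNReal NNReal

/-- Tonelli for product functions on `Fin n → ℝ`. -/
theorem lintegral_fin_prod {n : ℕ} (μ : Fin n → Measure ℝ) [∀ i, SigmaFinite (μ i)]
    (f : Fin n → ℝ → ℝ≥0∞) (hf : ∀ i, Measurable (f i)) :
    ∫⁻ x, ∏ i, f i (x i) ∂(Measure.pi μ) = ∏ i, ∫⁻ x, f i x ∂(μ i) := by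
  induction n with
  | zero => simp
  | succ n ih =>
    have hmp := (measurePreserving_piFinSuccAbove μ 0).symm
    have hmeas : Measurable fun x : Fin (n + 1) → ℝ => ∏ i, f i (x i) := by
      apply Finset.measurable_prod
      intro i _
      exact (hf i).comp (measurable_pi_apply i)
    rw [← hmp.lintegral_comp hmeas]
    have h2 : ∀ p : ℝ × (Fin n → ℝ),
        (∏ i, f i (((MeasurableEquiv.piFinSuccAbove (fun _ : Fin (n + 1) => ℝ) 0).symm p) i)) =
        f 0 p.1 * ∏ i : Fin n, f i.succ (p.2 i) := by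
      intro p
      rw [Fin.prod_univ_succ]
      simp [MeasurableEquiv.piFinSuccAbove_symm_apply, Fin.insertNthEquiv]
    simp_rw [h2]
    have h3 : Measurable fun y : Fin n → ℝ => ∏ i : Fin n, f i.succ (y i) := by
      apply Finset.measurable_prod
      intro i _
      exact (hf i.succ).comp (measurable_pi_apply i)
    rw [lintegral_prod_mul (hf 0).aemeasurable h3.aemeasurable, Fin.prod_univ_succ]
    congr 1
    exact ih (fun i => μ i.succ) (fun i => f i.succ) (fun i => hf i.succ)

/-- The centred product Gaussian with variances `v`. -/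
noncomputable def gp (v : Fin 4 → ℝ≥0) : Measure (Fin 4 → ℝ) :=
  Measure.pi (fun i => gaussianReal 0 (v i))

instance (v : Fin 4 → ℝ≥0) : IsProbabilityMeasure (gp v) := by
  unfold gp; infer_instance

theorem gp_eq_withDensity (v : Fin 4 → ℝ≥0) (hv : ∀ i, v i ≠ 0) :
    gp v = volume.withDensity (fun z => ∏ i, gaussianPDF 0 (v i) (z i)) := by
  unfold gp
  refine Measure.pi_eq fun s hs => ?_
  rw [withDensity_apply _ (MeasurableSet.univ_pi hs), ← lintegral_indicator (MeasurableSet.univ_pi hs)]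
  have h1 : ∀ z : Fin 4 → ℝ, (univ.pi s).indicator (fun z => ∏ i, gaussianPDF 0 (v i) (z i)) z =
      ∏ i, (s i).indicator (gaussianPDF 0 (v i)) (z i) := by
    intro z
    by_cases h : z ∈ univ.pi s
    · rw [indicator_of_mem h]
      refine Finset.prod_congr rfl fun i _ => ?_
      rw [indicator_of_mem (h i (mem_univ i))]
    · rw [indicator_of_notMem h]
      simp only [Set.mem_pi, mem_univ, true_implies, not_forall] at h
      obtain ⟨i, hi⟩ := h
      symm
      apply Finset.prod_eq_zero (Finset.mem_univ i)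
      exact indicator_of_notMem hi _
  simp_rw [h1]
  rw [volume_pi, lintegral_fin_prod _ _ (fun i => (measurable_gaussianPDF 0 (v i)).indicator (hs i))]
  refine Finset.prod_congr rfl fun i _ => ?_
  rw [lintegral_indicator (hs i), gaussianReal_of_var_ne_zero _ (hv i), withDensity_apply _ (hs i)]

/-- Symmetrisation: if `P` is invariant under `R` and `r + r ∘ R = 2`, then `r · P` and `P` have the
same image under every `ψ` with `ψ ∘ R = ψ`. -/
theorem map_withDensity_of_symm {Ω Y : Type*} [MeasurableSpace Ω] [MeasurableSpace Y]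
    (P : Measure Ω) (R : Ω → Ω) (hR : MeasurePreserving R P P)
    (r : Ω → ℝ≥0∞) (hr : Measurable r) (hrR : ∀ x, r x + r (R x) = 2)
    (ψ : Ω → Y) (hψ : Measurable ψ) (hψR : ∀ x, ψ (R x) = ψ x) :
    (P.withDensity r).map ψ = P.map ψ := by
  ext s hs
  rw [Measure.map_apply hψ hs, Measure.map_apply hψ hs, withDensity_apply _ (hψ hs)]
  have h1 : ∫⁻ x in ψ ⁻¹' s, r x ∂P = ∫⁻ x in ψ ⁻¹' s, r (R x) ∂P := by
    rw [← lintegral_indicator (hψ hs), ← lintegral_indicator (hψ hs)]
    have hm : Measurable ((ψ ⁻¹' s).indicator r) := hr.indicator (hψ hs)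
    rw [← hR.lintegral_comp hm]
    refine lintegral_congr fun x => ?_
    have : (R x ∈ ψ ⁻¹' s) ↔ (x ∈ ψ ⁻¹' s) := by
      simp only [mem_preimage, hψR]
    by_cases hx : x ∈ ψ ⁻¹' s
    · rw [indicator_of_mem hx, indicator_of_mem (this.2 hx)]
    · rw [indicator_of_notMem hx, indicator_of_notMem (fun h => hx (this.1 h))]
  have h2 : ∫⁻ x in ψ ⁻¹' s, r x ∂P + ∫⁻ x in ψ ⁻¹' s, r x ∂P = 2 * P (ψ ⁻¹' s) := by
    nth_rewrite 2 [h1]
    rw [← lintegral_add_left hr]
    simp_rw [hrR]
    rw [setLIntegral_const]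
  have h3 : 2 * ∫⁻ x in ψ ⁻¹' s, r x ∂P = 2 * P (ψ ⁻¹' s) := by
    rw [← h2, two_mul]
  exact (ENNReal.mul_right_inj (by norm_num) (by norm_num)).1 h3

/-- Coordinatewise scaling. -/
def scl (d : Fin 4 → ℝ) (z : Fin 4 → ℝ) : Fin 4 → ℝ := fun i => d i * z i

theorem measurable_scl (d : Fin 4 → ℝ) : Measurable (scl d) := by
  apply measurable_pi_lambda
  intro i
  have h : Measurable fun z : Fin 4 → ℝ => z i := measurable_pi_apply i
  exact h.const_mul (d i)

theorem gp_map_scl (v : Fin 4 → ℝ≥0) (d : Fin 4 → ℝ) :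
    (gp v).map (scl d) = gp (fun i => Real.toNNReal ((d i) ^ 2) * v i) := by
  unfold gp
  have h := Measure.pi_map_pi (μ := fun i => gaussianReal 0 (v i)) (f := fun i (x : ℝ) => d i * x)
    (hμ := fun i => by
      have : IsProbabilityMeasure ((gaussianReal 0 (v i)).map (fun x : ℝ => d i * x)) :=
        Measure.isProbabilityMeasure_map (by fun_prop)
      infer_instance)
    (fun i => by fun_prop)
  have h2 : (scl d) = fun (x : Fin 4 → ℝ) i => d i * x i := rfl
  rw [h2, h]
  congr 1
  funext i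
  rw [gaussianReal_map_const_mul]
  have h3 : (NNReal.mk (d i ^ 2) (sq_nonneg _)) = Real.toNNReal ((d i) ^ 2) := by
    apply NNReal.eq
    rw [Real.coe_toNNReal _ (sq_nonneg _)]
    rfl
  rw [mul_zero]
  exact congrArg (fun t => gaussianReal 0 (t * v i)) h3

theorem measurePreserving_scl_of_sq_one (v : Fin 4 → ℝ≥0) (d : Fin 4 → ℝ) (hd : ∀ i, d i ^ 2 = 1) :
    MeasurePreserving (scl d) (gp v) (gp v) := by
  refine ⟨measurable_scl d, ?_⟩
  rw [gp_map_scl]
  congr 1
  funext i
  rw [hd i]
  simp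

end Pool.Agent.H770Bary
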