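import Pool.Agent.H770Bary.SLC

set_option autoImplicit false

/-! The density `1 + q / 8`, `q = arctan(z₁) sin(z₂) sin(z₃)`, and the convexity of
`(3/8) z₁² + (15/8) (z₂² + z₃²) - log(1 + q / 8)`. -/

namespace Pool.Agent.H770Bary

open MeasureTheory ProbabilityTheory Filter Topology Set
open scoped ENNReal NNReal

/-- The perturbation. -/
noncomputable def q3 (x u v : ℝ) : ℝ := Real.arctan x * Real.sin u * Real.sin v

/-- The density relative to the product Gaussian. -/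
noncomputable def dens (z : Fin 4 → ℝ) : ℝ := 1 + q3 (z 1) (z 2) (z 3) / 8

theorem abs_arctan_le (x : ℝ) : |Real.arctan x| ≤ 2 := by
  have h1 := Real.arctan_lt_pi_div_two x
  have h2 := Real.neg_pi_div_two_lt_arctan x
  have h3 := Real.pi_lt_d2
  rw [abs_le]; constructor <;> linarith

theorem abs_q3_le (x u v : ℝ) : |q3 x u v| ≤ 2 := by
  unfold q3
  rw [abs_mul, abs_mul]
  calc |Real.arctan x| * |Real.sin u| * |Real.sin v| ≤ 2 * 1 * 1 := by
        gcongr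
        · exact abs_arctan_le x
        · exact Real.abs_sin_le_one u
        · exact Real.abs_sin_le_one v
    _ = 2 := by norm_num

theorem dens_ge (z : Fin 4 → ℝ) : 3 / 4 ≤ dens z := by
  have := abs_q3_le (z 1) (z 2) (z 3)
  unfold dens
  rw [abs_le] at this; linarith

theorem dens_le (z : Fin 4 → ℝ) : dens z ≤ 5 / 4 := by
  have := abs_q3_le (z 1) (z 2) (z 3)
  unfold dens
  rw [abs_le] at this; linarith

theorem dens_pos (z : Fin 4 → ℝ) : 0 < dens z := by linarith [dens_ge z]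

theorem continuous_dens : Continuous dens := by
  unfold dens q3
  have := Real.continuous_arctan
  fun_prop

/-- The function to be shown convex. -/
noncomputable def G3 (x u v : ℝ) : ℝ :=
  3 / 8 * x ^ 2 + 15 / 8 * (u ^ 2 + v ^ 2) - Real.log (1 + q3 x u v / 8)

theorem d2_bound (h h1 h2 S2 C2 S3 C3 a b c : ℝ) (hh : |h| ≤ 2) (hh1 : |h1| ≤ 1) (hh2 : |h2| ≤ 1)
    (hS2 : |S2| ≤ 1) (hC2 : |C2| ≤ 1) (hS3 : |S3| ≤ 1) (hC3 : |C3| ≤ 1) :
    |a ^ 2 * h2 * S2 * S3 + 2 * (a * b * h1 * C2 * S3) + 2 * (a * c * h1 * S2 * C3)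
      - b ^ 2 * h * S2 * S3 + 2 * (b * c * h * C2 * C3) - c ^ 2 * h * S2 * S3| ≤
      3 * a ^ 2 + 5 * b ^ 2 + 5 * c ^ 2 := by
  have e1 : |a ^ 2 * h2 * S2 * S3| ≤ a ^ 2 := by
    rw [abs_mul, abs_mul, abs_mul, abs_of_nonneg (sq_nonneg a)]
    calc a ^ 2 * |h2| * |S2| * |S3| ≤ a ^ 2 * 1 * 1 * 1 := by gcongr
      _ = a ^ 2 := by ring
  have e2 : |a * b * h1 * C2 * S3| ≤ |a * b| := by
    rw [abs_mul, abs_mul, abs_mul]
    calc |a * b| * |h1| * |C2| * |S3| ≤ |a * b| * 1 * 1 * 1 := by gcongr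
      _ = |a * b| := by ring
  have e3 : |a * c * h1 * S2 * C3| ≤ |a * c| := by
    rw [abs_mul, abs_mul, abs_mul]
    calc |a * c| * |h1| * |S2| * |C3| ≤ |a * c| * 1 * 1 * 1 := by gcongr
      _ = |a * c| := by ring
  have e4 : |b ^ 2 * h * S2 * S3| ≤ 2 * b ^ 2 := by
    rw [abs_mul, abs_mul, abs_mul, abs_of_nonneg (sq_nonneg b)]
    calc b ^ 2 * |h| * |S2| * |S3| ≤ b ^ 2 * 2 * 1 * 1 := by gcongr
      _ = 2 * b ^ 2 := by ring
  have e5 : |b * c * h * C2 * C3| ≤ 2 * |b * c| := by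
    rw [abs_mul, abs_mul, abs_mul]
    calc |b * c| * |h| * |C2| * |C3| ≤ |b * c| * 2 * 1 * 1 := by gcongr
      _ = 2 * |b * c| := by ring
  have e6 : |c ^ 2 * h * S2 * S3| ≤ 2 * c ^ 2 := by
    rw [abs_mul, abs_mul, abs_mul, abs_of_nonneg (sq_nonneg c)]
    calc c ^ 2 * |h| * |S2| * |S3| ≤ c ^ 2 * 2 * 1 * 1 := by gcongr
      _ = 2 * c ^ 2 := by ring
  have f1 : 2 * |a * b| ≤ a ^ 2 + b ^ 2 := by
    rw [abs_mul]; nlinarith [sq_nonneg (|a| - |b|), sq_abs a, sq_abs b]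
  have f2 : 2 * |a * c| ≤ a ^ 2 + c ^ 2 := by
    rw [abs_mul]; nlinarith [sq_nonneg (|a| - |c|), sq_abs a, sq_abs c]
  have f3 : 2 * |b * c| ≤ b ^ 2 + c ^ 2 := by
    rw [abs_mul]; nlinarith [sq_nonneg (|b| - |c|), sq_abs b, sq_abs c]
  rw [abs_le] at e1 e2 e3 e4 e5 e6 ⊢
  constructor <;> linarith [e1.1, e1.2, e2.1, e2.2, e3.1, e3.2, e4.1, e4.2, e5.1, e5.2, e6.1, e6.2]

theorem abs_d1 (x : ℝ) : |1 / (1 + x ^ 2)| ≤ 1 := by
  rw [abs_of_nonneg (by positivity), div_le_one (by positivity)]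
  nlinarith [sq_nonneg x]

theorem abs_d2 (x : ℝ) : |-(2 * x) / (1 + x ^ 2) ^ 2| ≤ 1 := by
  rw [abs_div, abs_neg, abs_of_nonneg (a := (1 + x ^ 2) ^ 2) (by positivity),
    div_le_one (by positivity), abs_mul, abs_two]
  nlinarith [sq_nonneg (|x| - 1), sq_abs x, sq_nonneg x, sq_nonneg (x ^ 2)]

theorem G3_line_convex (A B C a b c : ℝ) :
    ConvexOn ℝ univ (fun s : ℝ => G3 (A + s * a) (B + s * b) (C + s * c)) := by
  have hlin : ∀ (P p s : ℝ), HasDerivAt (fun s : ℝ => P + s * p) p s := by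
    intro P p s
    simpa using ((hasDerivAt_id s).mul_const p).const_add P
  -- basic functions and their derivatives
  let h : ℝ → ℝ := fun s => Real.arctan (A + s * a)
  let h1 : ℝ → ℝ := fun s => 1 / (1 + (A + s * a) ^ 2)
  let h2 : ℝ → ℝ := fun s => -(2 * (A + s * a)) / (1 + (A + s * a) ^ 2) ^ 2
  let S2 : ℝ → ℝ := fun s => Real.sin (B + s * b)
  let C2 : ℝ → ℝ := fun s => Real.cos (B + s * b)
  let S3 : ℝ → ℝ := fun s => Real.sin (C + s * c)
  let C3 : ℝ → ℝ := fun s => Real.cos (C + s * c)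
  have dh : ∀ s, HasDerivAt h (h1 s * a) s := fun s => (hlin A a s).arctan
  have dh1 : ∀ s, HasDerivAt h1 (h2 s * a) s := by
    intro s
    have e1 : HasDerivAt (fun s : ℝ => 1 + (A + s * a) ^ 2) (2 * (A + s * a) * a) s := by
      have := ((hlin A a s).pow 2).const_add 1
      simpa using this
    have e2 := e1.inv (by positivity)
    have e3 : h1 = fun s => (1 + (A + s * a) ^ 2)⁻¹ := by funext s; simp [h1]
    rw [e3]
    exact e2.congr_deriv (by simp only [h2]; ring)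
  have dS2 : ∀ s, HasDerivAt S2 (C2 s * b) s := fun s => (hlin B b s).sin
  have dC2 : ∀ s, HasDerivAt C2 (-S2 s * b) s := fun s => (hlin B b s).cos
  have dS3 : ∀ s, HasDerivAt S3 (C3 s * c) s := fun s => (hlin C c s).sin
  have dC3 : ∀ s, HasDerivAt C3 (-S3 s * c) s := fun s => (hlin C c s).cos
  let Q : ℝ → ℝ := fun s => h s * S2 s * S3 s
  let Q1 : ℝ → ℝ := fun s => a * h1 s * S2 s * S3 s + b * h s * C2 s * S3 s + c * h s * S2 s * C3 s
  let Q2 : ℝ → ℝ := fun s => a ^ 2 * h2 s * S2 s * S3 s + 2 * (a * b * h1 s * C2 s * S3 s)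
    + 2 * (a * c * h1 s * S2 s * C3 s)
      - b ^ 2 * h s * S2 s * S3 s + 2 * (b * c * h s * C2 s * C3 s) - c ^ 2 * h s * S2 s * S3 s
  have dQ : ∀ s, HasDerivAt Q (Q1 s) s := by
    intro s
    have t := ((dh s).mul (dS2 s)).mul (dS3 s)
    exact t.congr_deriv (by simp only [Q1, Pi.mul_apply]; ring)
  have dQ1 : ∀ s, HasDerivAt Q1 (Q2 s) s := by
    intro s
    have t1 := (((dh1 s).const_mul a).mul (dS2 s)).mul (dS3 s)
    have t2 := (((dh s).const_mul b).mul (dC2 s)).mul (dS3 s)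
    have t3 := (((dh s).const_mul c).mul (dS2 s)).mul (dC3 s)
    have t := (t1.add t2).add t3
    exact t.congr_deriv (by simp only [Q2, Pi.mul_apply]; ring)
  have hQb : ∀ s, |Q s| ≤ 2 := fun s => abs_q3_le _ _ _
  have hQpos : ∀ s, 3 / 4 ≤ 1 + Q s / 8 := by
    intro s
    have := hQb s; rw [abs_le] at this; linarith
  let φ1 : ℝ → ℝ := fun s => 3 / 4 * a * (A + s * a) + 15 / 4 * (b * (B + s * b) + c * (C + s * c))
    - (Q1 s / 8) / (1 + Q s / 8)
  let φ2 : ℝ → ℝ := fun s => 3 / 4 * a ^ 2 + 15 / 4 * (b ^ 2 + c ^ 2)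
    - ((Q2 s / 8) * (1 + Q s / 8) - (Q1 s / 8) * (Q1 s / 8)) / (1 + Q s / 8) ^ 2
  have d1 : ∀ s, HasDerivAt (fun s : ℝ => G3 (A + s * a) (B + s * b) (C + s * c)) (φ1 s) s := by
    intro s
    have e1 := (((hlin A a s).pow 2).const_mul (3 / 8 : ℝ))
    have e2 := ((((hlin B b s).pow 2).add ((hlin C c s).pow 2)).const_mul (15 / 8 : ℝ))
    have e3 := (((dQ s).div_const 8).const_add 1).log (by linarith [hQpos s])
    have t := (e1.add e2).sub e3
    exact t.congr_deriv (by simp only [φ1]; push_cast; ring)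
  have d2 : ∀ s, HasDerivAt φ1 (φ2 s) s := by
    intro s
    have e1 := (hlin A a s).const_mul (3 / 4 * a)
    have e2 := (((hlin B b s).const_mul b).add ((hlin C c s).const_mul c)).const_mul (15 / 4 : ℝ)
    have e3 := ((dQ1 s).div_const 8).div (((dQ s).div_const 8).const_add 1)
      (by linarith [hQpos s])
    have t := (e1.add e2).sub e3
    exact t.congr_deriv (by simp only [φ2]; ring)
  have d2nn : ∀ s, 0 ≤ φ2 s := by
    intro s
    have hb := d2_bound (h s) (h1 s) (h2 s) (S2 s) (C2 s) (S3 s) (C3 s) a b c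
      (abs_arctan_le _) (abs_d1 _) (abs_d2 _) (Real.abs_sin_le_one _) (Real.abs_cos_le_one _)
      (Real.abs_sin_le_one _) (Real.abs_cos_le_one _)
    have hb2 : |Q2 s| ≤ 3 * a ^ 2 + 5 * b ^ 2 + 5 * c ^ 2 := hb
    have hp := hQpos s
    have hp0 : 0 < 1 + Q s / 8 := by linarith
    have e1 : ((Q2 s / 8) * (1 + Q s / 8) - (Q1 s / 8) * (Q1 s / 8)) / (1 + Q s / 8) ^ 2
        = (Q2 s / 8) / (1 + Q s / 8) - (Q1 s / 8) ^ 2 / (1 + Q s / 8) ^ 2 := by
      field_simp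
    have e2 : (Q2 s / 8) / (1 + Q s / 8) ≤ (3 * a ^ 2 + 5 * b ^ 2 + 5 * c ^ 2) / 6 := by
      rw [div_le_iff₀ hp0]
      have h3 : Q2 s ≤ 3 * a ^ 2 + 5 * b ^ 2 + 5 * c ^ 2 := (le_abs_self _).trans hb2
      have h4 : 0 ≤ 3 * a ^ 2 + 5 * b ^ 2 + 5 * c ^ 2 := by positivity
      nlinarith
    have e3 : 0 ≤ (Q1 s / 8) ^ 2 / (1 + Q s / 8) ^ 2 := by positivity
    show 0 ≤ 3 / 4 * a ^ 2 + 15 / 4 * (b ^ 2 + c ^ 2)
      - ((Q2 s / 8) * (1 + Q s / 8) - (Q1 s / 8) * (Q1 s / 8)) / (1 + Q s / 8) ^ 2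
    rw [e1]
    nlinarith [sq_nonneg a, sq_nonneg b, sq_nonneg c]
  apply convexOn_of_hasDerivWithinAt2_nonneg convex_univ
    (f' := φ1) (f'' := φ2)
  · exact fun s _ => (d1 s).continuousAt.continuousWithinAt
  · intro s _; exact (d1 s).hasDerivWithinAt
  · intro s _; exact (d2 s).hasDerivWithinAt
  · intro s _; exact d2nn s

theorem G3_convex (x u v x' u' v' a b : ℝ) (ha : 0 ≤ a) (hb : 0 ≤ b) (hab : a + b = 1) :
    G3 (a * x + b * x') (a * u + b * u') (a * v + b * v') ≤ a * G3 x u v + b * G3 x' u' v' := by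
  have h := (G3_line_convex x u v (x' - x) (u' - u) (v' - v)).2 (mem_univ (0 : ℝ)) (mem_univ (1 : ℝ))
    ha hb hab
  simp only [smul_eq_mul, mul_zero, zero_add, mul_one] at h
  have ha' : a = 1 - b := by linarith
  have e1 : x + b * (x' - x) = a * x + b * x' := by rw [ha']; ring
  have e2 : u + b * (u' - u) = a * u + b * u' := by rw [ha']; ring
  have e3 : v + b * (v' - v) = a * v + b * v' := by rw [ha']; ring
  rw [e1, e2, e3] at h
  simpa using h

end Pool.Agent.H770Bary
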