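import Pool.Agent.H770Bary.Ref

set_option autoImplicit false

/-! Moments of the test function under the base measure. -/

namespace Pool.Agent.H770Bary

open MeasureTheory ProbabilityTheory Filter Topology Set
open scoped ENNReal NNReal RealInnerProductSpace ContDiff

/-- `sin z₂ sin z₃`. -/
noncomputable def sf (z : Fin 4 → ℝ) : ℝ := Real.sin (z 2) * Real.sin (z 3)

theorem abs_sf_le (z : Fin 4 → ℝ) : |sf z| ≤ 1 := by
  unfold sf
  rw [abs_mul]
  exact mul_le_one₀ (Real.abs_sin_le_one _) (abs_nonneg _) (Real.abs_sin_le_one _)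

theorem continuous_sf : Continuous sf := by
  unfold sf; fun_prop

noncomputable def g1 : Measure (Fin 4 → ℝ) := gp (vr 1)

instance : IsProbabilityMeasure g1 := by unfold g1; infer_instance

theorem rb_eq : rb = g1.withDensity densE := rfl

theorem integral_rb (F : (Fin 4 → ℝ) → ℝ) : ∫ z, F z ∂rb = ∫ z, dens z * F z ∂g1 := by
  rw [rb_eq, integral_withDensity_eq_integral_toReal_smul measurable_densE
    (Eventually.of_forall fun z => ENNReal.ofReal_lt_top)]
  refine integral_congr_ae (Eventually.of_forall fun z => ?_)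
  simp only [densE, smul_eq_mul]
  rw [ENNReal.toReal_ofReal (dens_pos z).le]

theorem integral_odd (F : (Fin 4 → ℝ) → ℝ) (hF : Measurable F) (d : Fin 4 → ℝ)
    (hd : ∀ i, d i ^ 2 = 1) (h : ∀ z, F (scl d z) = -F z) : ∫ z, F z ∂g1 = 0 := by
  have hm := measurePreserving_scl_of_sq_one (vr 1) d hd
  have h1 : ∫ z, F z ∂g1 = ∫ z, F (scl d z) ∂g1 := by
    conv_lhs => rw [g1, ← hm.map_eq]
    rw [integral_map (measurable_scl d).aemeasurable hF.aestronglyMeasurable]
    rfl
  have h2 : ∫ z, F (scl d z) ∂g1 = -∫ z, F z ∂g1 := by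
    rw [← integral_neg]
    exact integral_congr_ae (Eventually.of_forall fun z => h z)
  linarith

def flip1 : Fin 4 → ℝ := ![1, -1, 1, 1]

theorem flip1_sq : ∀ i, flip1 i ^ 2 = 1 := by
  intro i; fin_cases i <;> simp [flip1]

theorem dens_flip1 (z : Fin 4 → ℝ) : dens (scl flip1 z) = 2 - dens z := by
  simp [dens, scl, flip1, q3, Real.arctan_neg]; ring

theorem sf_flip3 (z : Fin 4 → ℝ) : sf (scl flip3 z) = -sf z := by
  simp [sf, scl, flip3, Real.sin_neg]

theorem sf_flip1 (z : Fin 4 → ℝ) : sf (scl flip1 z) = sf z := by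
  simp [sf, scl, flip1]

theorem memLp_g1 (i : Fin 4) : MemLp (fun z : Fin 4 → ℝ => z i) 2 g1 := by
  have h : MemLp (id : ℝ → ℝ) 2 (g1.map fun z : Fin 4 → ℝ => z i) := by
    unfold g1
    rw [gp_map_eval]
    exact memLp_id_gaussianReal 2
  exact (memLp_map_measure_iff (g := (id : ℝ → ℝ)) measurable_id.aestronglyMeasurable
    (measurable_pi_apply i).aemeasurable).1 h

theorem memLp_rb (i : Fin 4) : MemLp (fun z : Fin 4 → ℝ => z i) 2 rb := by
  have h : MemLp (id : ℝ → ℝ) 2 (rb.map fun z : Fin 4 → ℝ => z i) := by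
    unfold rb
    rw [rho0_map_eval]
    exact memLp_id_gaussianReal 2
  exact (memLp_map_measure_iff (g := (id : ℝ → ℝ)) measurable_id.aestronglyMeasurable
    (measurable_pi_apply i).aemeasurable).1 h

theorem memLp_sf (P : Measure (Fin 4 → ℝ)) [IsProbabilityMeasure P] : MemLp sf 2 P := by
  refine MemLp.of_bound continuous_sf.aestronglyMeasurable 1 (Eventually.of_forall fun z => ?_)
  rw [Real.norm_eq_abs]; exact abs_sf_le z

theorem integral_coord_rb (i : Fin 4) : ∫ z, z i ∂rb = 0 := by
  have h : ∫ z : Fin 4 → ℝ, z i ∂rb = ∫ t, t ∂(rb.map fun z : Fin 4 → ℝ => z i) := by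
    rw [integral_map (measurable_pi_apply i).aemeasurable (by fun_prop)]
  rw [h]
  unfold rb
  rw [rho0_map_eval]
  exact integral_id_gaussianReal

theorem integral_sf_rb : ∫ z, sf z ∂rb = 0 := by
  rw [integral_rb]
  have hi1 : Integrable (fun z => (dens z - 1) * sf z) g1 := by
    refine (memLp_sf g1).integrable (by norm_num) |>.mono ?_ (Eventually.of_forall fun z => ?_)
    · exact ((continuous_dens.sub continuous_const).mul continuous_sf).aestronglyMeasurable
    · rw [norm_mul]
      have : ‖dens z - 1‖ ≤ 1 := by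
        rw [Real.norm_eq_abs, abs_le]
        constructor <;> linarith [dens_ge z, dens_le z]
      exact mul_le_of_le_one_left (norm_nonneg _) this
  have hi2 : Integrable (fun z => sf z) g1 := (memLp_sf g1).integrable (by norm_num)
  have h1 : ∫ z, dens z * sf z ∂g1 = ∫ z, (dens z - 1) * sf z ∂g1 + ∫ z, sf z ∂g1 := by
    rw [← integral_add hi1 hi2]
    refine integral_congr_ae (Eventually.of_forall fun z => ?_)
    simp only; ring
  rw [h1, integral_odd (fun z => (dens z - 1) * sf z)
    ((continuous_dens.sub continuous_const).mul continuous_sf).measurable flip1 flip1_sq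
    (fun z => by rw [dens_flip1, sf_flip1]; ring),
    integral_odd sf continuous_sf.measurable flip3 flip3_sq sf_flip3, add_zero]

/-- The covariance constant. -/
noncomputable def cst : ℝ := ∫ z, z 1 * sf z ∂rb

/-- The relevant integrand. -/
noncomputable def Fc (z : Fin 4 → ℝ) : ℝ := (dens z - 1) * (z 1 * sf z)

theorem Fc_eq (z : Fin 4 → ℝ) :
    Fc z = (z 1 * Real.arctan (z 1)) * (Real.sin (z 2) ^ 2 * Real.sin (z 3) ^ 2) / 8 := by
  unfold Fc dens q3 sf; ring

theorem mul_arctan_nonneg (x : ℝ) : 0 ≤ x * Real.arctan x := by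
  rcases le_total 0 x with h | h
  · exact mul_nonneg h (Real.arctan_nonneg.2 h)
  · have h2 : Real.arctan x ≤ 0 := by
      have := Real.arctan_mono h
      simpa using this
    exact mul_nonneg_of_nonpos_of_nonpos h h2

theorem Fc_nonneg (z : Fin 4 → ℝ) : 0 ≤ Fc z := by
  rw [Fc_eq]
  have := mul_arctan_nonneg (z 1)
  positivity

theorem Fc_le (z : Fin 4 → ℝ) : Fc z ≤ ((z 1) ^ 2 + 1) / 8 := by
  rw [Fc_eq]
  have h1 := mul_arctan_nonneg (z 1)
  have h2 : z 1 * Real.arctan (z 1) ≤ (z 1) ^ 2 + 1 := by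
    have h3 : z 1 * Real.arctan (z 1) ≤ |z 1| * 2 := by
      calc z 1 * Real.arctan (z 1) ≤ |z 1 * Real.arctan (z 1)| := le_abs_self _
        _ = |z 1| * |Real.arctan (z 1)| := abs_mul _ _
        _ ≤ |z 1| * 2 := by gcongr; exact abs_arctan_le _
    nlinarith [sq_nonneg (|z 1| - 1), sq_abs (z 1)]
  have h4 : Real.sin (z 2) ^ 2 * Real.sin (z 3) ^ 2 ≤ 1 :=
    mul_le_one₀ (Real.sin_sq_le_one _) (sq_nonneg _) (Real.sin_sq_le_one _)
  have h5 : (z 1 * Real.arctan (z 1)) * (Real.sin (z 2) ^ 2 * Real.sin (z 3) ^ 2) ≤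
      ((z 1) ^ 2 + 1) * 1 := mul_le_mul h2 h4 (by positivity) (by positivity)
  linarith

theorem continuous_Fc : Continuous Fc := by
  unfold Fc
  exact (continuous_dens.sub continuous_const).mul ((continuous_apply 1).mul continuous_sf)

theorem int_z1sf : Integrable (fun z : Fin 4 → ℝ => z 1 * sf z) g1 := by
  refine ((memLp_g1 1).integrable (by norm_num)).mono ?_ (Eventually.of_forall fun z => ?_)
  · exact ((continuous_apply 1).mul continuous_sf).aestronglyMeasurable
  · rw [norm_mul]
    have : ‖sf z‖ ≤ 1 := abs_sf_le z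
    exact mul_le_of_le_one_right (norm_nonneg _) this

theorem int_Fc : Integrable Fc g1 := by
  refine ((((memLp_g1 1).integrable_sq).add (integrable_const 1)).div_const 8).mono
    continuous_Fc.aestronglyMeasurable (Eventually.of_forall fun z => ?_)
  rw [Real.norm_of_nonneg (Fc_nonneg z), Real.norm_eq_abs]
  exact (Fc_le z).trans (le_abs_self _)

theorem cst_eq : cst = ∫ z, Fc z ∂g1 := by
  unfold cst
  rw [integral_rb]
  have h1 : ∫ z, dens z * (z 1 * sf z) ∂g1 = ∫ z, Fc z ∂g1 + ∫ z, z 1 * sf z ∂g1 := by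
    rw [← integral_add int_Fc int_z1sf]
    refine integral_congr_ae (Eventually.of_forall fun z => ?_)
    simp only [Fc]; ring
  rw [h1, integral_odd (fun z => z 1 * sf z)
    ((continuous_apply 1).mul continuous_sf).measurable flip3 flip3_sq
    (fun z => by rw [sf_flip3]; simp [scl, flip3]), add_zero]

theorem ac_g1 : (volume : Measure (Fin 4 → ℝ)) ≪ g1 := by
  unfold g1
  have hv : ∀ i, vr 1 i ≠ 0 := by
    intro i; fin_cases i <;> simp [vr]
  rw [gp_eq_withDensity _ hv]
  apply withDensity_absolutelyContinuous'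
  · apply Measurable.aemeasurable
    apply Finset.measurable_prod
    intro i _
    exact (measurable_gaussianPDF 0 (vr 1 i)).comp (measurable_pi_apply i)
  · refine Eventually.of_forall fun z => ?_
    rw [Finset.prod_ne_zero_iff]
    intro i _
    exact (gaussianPDF_pos _ (hv i) _).ne'

theorem cst_pos : 0 < cst := by
  rw [cst_eq, integral_pos_iff_support_of_nonneg Fc_nonneg int_Fc]
  let U : Set (Fin 4 → ℝ) := {z | 0 < z 1} ∩ ({z | 0 < z 2 ∧ z 2 < Real.pi} ∩ {z | 0 < z 3 ∧ z 3 < Real.pi})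
  have hU : IsOpen U := by
    refine IsOpen.inter ?_ (IsOpen.inter ?_ ?_)
    · exact isOpen_lt continuous_const (continuous_apply 1)
    · exact (isOpen_lt continuous_const (continuous_apply 2)).inter
        (isOpen_lt (continuous_apply 2) continuous_const)
    · exact (isOpen_lt continuous_const (continuous_apply 3)).inter
        (isOpen_lt (continuous_apply 3) continuous_const)
  have hne : U.Nonempty := by
    refine ⟨fun _ => 1, ?_⟩
    have : (1 : ℝ) < Real.pi := by linarith [Real.pi_gt_three]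
    simp [U, this]
  have hsub : U ⊆ Function.support Fc := by
    rintro z ⟨h1, ⟨h2, h2'⟩, ⟨h3, h3'⟩⟩
    have h1' : 0 < z 1 := h1
    rw [Function.mem_support, Fc_eq]
    have a1 : 0 < Real.arctan (z 1) := Real.arctan_pos.2 h1'
    have a2 : 0 < Real.sin (z 2) := Real.sin_pos_of_pos_of_lt_pi h2 h2'
    have a3 : 0 < Real.sin (z 3) := Real.sin_pos_of_pos_of_lt_pi h3 h3'
    positivity
  have hpos : 0 < g1 U := by
    rw [pos_iff_ne_zero]
    intro h0
    have := ac_g1 h0
    exact (hU.measure_pos volume hne).ne' this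
  exact lt_of_lt_of_le hpos (measure_mono hsub)

theorem cst_le : cst ≤ 1 / 4 := by
  rw [cst_eq]
  have hi : Integrable (fun z : Fin 4 → ℝ => ((z 1) ^ 2 + 1) / 8) g1 :=
    (((memLp_g1 1).integrable_sq).add (integrable_const 1)).div_const 8
  refine (integral_mono int_Fc hi Fc_le).trans ?_
  rw [integral_div, integral_add (memLp_g1 1).integrable_sq (integrable_const 1)]
  have h1 : ∫ z : Fin 4 → ℝ, (z 1) ^ 2 ∂g1 = 1 := by
    rw [integral_eq_lintegral_of_nonneg_ae (Eventually.of_forall fun y => sq_nonneg _)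
      (((continuous_apply 1).pow 2).aestronglyMeasurable)]
    unfold g1
    rw [gp_lintegral_sq]
    simp [vr]
  rw [h1]
  simp
  norm_num

/-- The second moment of the test function under the base measure. -/
theorem secmom (τ : ℝ) : 1 + 2 * τ * cst ≤ ∫ z, (z 1 + τ * sf z) ^ 2 ∂rb := by
  have h1 := memLp_rb 1
  have h2 := memLp_sf rb
  have h3 : MemLp (fun z : Fin 4 → ℝ => z 1 + τ * sf z) 2 rb := h1.add (h2.const_mul τ)
  have e1 : ∫ z : Fin 4 → ℝ, (z 1) ^ 2 ∂rb = 1 := by
    rw [integral_eq_lintegral_of_nonneg_ae (Eventually.of_forall fun y => sq_nonneg _)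
      (((continuous_apply 1).pow 2).aestronglyMeasurable)]
    unfold rb
    rw [rho0_lintegral_sq]
    simp [vr]
  have i1 : Integrable (fun z : Fin 4 → ℝ => z 1 * sf z) rb := h1.integrable_mul h2
  have i2 : Integrable (fun z : Fin 4 → ℝ => 2 * τ * (z 1 * sf z)) rb := i1.const_mul _
  have e2 : 1 + 2 * τ * cst = ∫ z : Fin 4 → ℝ, (z 1) ^ 2 + 2 * τ * (z 1 * sf z) ∂rb := by
    rw [integral_add h1.integrable_sq i2, e1, integral_const_mul]; rfl
  rw [e2]
  refine integral_mono (h1.integrable_sq.add i2) h3.integrable_sq fun z => ?_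
  simp only
  nlinarith [sq_nonneg (τ * sf z)]

theorem mean0 (τ : ℝ) : ∫ z, (z 1 + τ * sf z) ∂rb = 0 := by
  have h1 := (memLp_rb 1).integrable (by norm_num)
  have h2 := ((memLp_sf rb).integrable (by norm_num : (1 : ℝ≥0∞) ≤ 2)).const_mul τ
  rw [integral_add h1 h2, integral_coord_rb, integral_const_mul, integral_sf_rb]
  simp

end Pool.Agent.H770Bary
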