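import Pool.Agent.H770Bary.Defs

set_option autoImplicit false

/-! Cut-off: a Lipschitz smooth function violating the Poincaré inequality with constant `c` gives
the lower bound `c < C_P`. -/

namespace Pool.Agent.H770Bary

open MeasureTheory ProbabilityTheory Filter Topology Set
open scoped ENNReal NNReal ContDiff

variable {n : ℕ}

/-- A single test function in `C_c^∞` bounds the Poincaré constant from below. -/
theorem lt_poincare_of_test (m : Measure (EuclideanSpace ℝ (Fin n))) (c : ℝ) (hc : 0 ≤ c)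
    (φ : EuclideanSpace ℝ (Fin n) → ℝ) (hφ : ContDiff ℝ ∞ φ) (hφc : HasCompactSupport φ)
    (h : c * ∫ x, ‖fderiv ℝ φ x‖ ^ 2 ∂m < Var[φ; m]) :
    ENNReal.ofReal c < poincareConstant m := by
  set I : ℝ := ∫ x, ‖fderiv ℝ φ x‖ ^ 2 ∂m with hI
  have hI0 : 0 ≤ I := integral_nonneg fun x => by positivity
  obtain ⟨c1, hc1, hc2⟩ : ∃ c1, c < c1 ∧ c1 * I < Var[φ; m] := by
    have hcont : Tendsto (fun t : ℝ => (c + t) * I) (𝓝[>] 0) (𝓝 ((c + 0) * I)) := by
      apply Tendsto.mono_left _ nhdsWithin_le_nhds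
      exact ((continuous_const.add continuous_id).mul continuous_const).tendsto 0
    rw [add_zero] at hcont
    have h1 := hcont.eventually (gt_mem_nhds h)
    have h2 : ∀ᶠ t : ℝ in 𝓝[>] 0, 0 < t := self_mem_nhdsWithin
    obtain ⟨t, ht1, ht2⟩ := (h1.and h2).exists
    exact ⟨c + t, by linarith, ht1⟩
  have hle : ENNReal.ofReal c1 ≤ poincareConstant m := by
    refine le_sInf fun C hC => ?_
    by_contra hlt
    rw [not_le] at hlt
    have h1 := hC φ hφ hφc
    have h2 : C * ENNReal.ofReal I ≤ ENNReal.ofReal (c1 * I) := by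
      rw [ENNReal.ofReal_mul (by linarith)]
      gcongr
    have h3 := h1.trans h2
    have h4 : ENNReal.ofReal (c1 * I) < ENNReal.ofReal (Var[φ; m]) :=
      (ENNReal.ofReal_lt_ofReal_iff (lt_of_le_of_lt (mul_nonneg (by linarith) hI0) hc2)).2 hc2
    exact absurd h3 (not_le.2 h4)
  refine lt_of_lt_of_le ?_ hle
  exact (ENNReal.ofReal_lt_ofReal_iff (by linarith)).2 hc1

theorem lt_poincare_of_lip (m : Measure (EuclideanSpace ℝ (Fin n))) [IsProbabilityMeasure m]
    (hm : Integrable (fun x => ‖x‖ ^ 2) m) (c : ℝ) (hc : 0 ≤ c)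
    (f : EuclideanSpace ℝ (Fin n) → ℝ) (hf : ContDiff ℝ ∞ f) (L : ℝ) (hL : 0 ≤ L)
    (hfL : ∀ x, ‖fderiv ℝ f x‖ ≤ L)
    (h : c * ∫ x, ‖fderiv ℝ f x‖ ^ 2 ∂m < Var[f; m]) :
    ENNReal.ofReal c < poincareConstant m := by
  classical
  let E := EuclideanSpace ℝ (Fin n)
  have hfd : Differentiable ℝ f := hf.differentiable (by simp)
  -- growth of f
  have hgrow : ∀ x, |f x| ≤ |f 0| + L * ‖x‖ := by
    intro x
    have h1 := Convex.norm_image_sub_le_of_norm_fderiv_le (f := f) (𝕜 := ℝ) (C := L)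
      (s := Set.univ) (x := 0) (y := x) (fun z _ => hfd z) (fun z _ => hfL z) convex_univ
      (mem_univ _) (mem_univ _)
    rw [sub_zero, Real.norm_eq_abs] at h1
    have h2 : |f x| ≤ |f x - f 0| + |f 0| := by
      have := abs_add_le (f x - f 0) (f 0); simpa using this
    linarith
  let χ : ContDiffBump (0 : E) := ⟨1, 2, one_pos, one_lt_two⟩
  have hχs : ContDiff ℝ ∞ (χ : E → ℝ) := χ.contDiff
  have hχc : HasCompactSupport (χ : E → ℝ) := χ.hasCompactSupport
  have hχd : Continuous fun x => fderiv ℝ (χ : E → ℝ) x := hχs.continuous_fderiv (by simp)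
  obtain ⟨K, hK⟩ : ∃ K, ∀ x, ‖fderiv ℝ (χ : E → ℝ) x‖ ≤ K :=
    (hχc.fderiv (𝕜 := ℝ)).exists_bound_of_continuous hχd
  have hK0 : 0 ≤ K := (norm_nonneg _).trans (hK 0)
  let s : ℕ → ℝ := fun k => 1 / ((k : ℝ) + 1)
  have hs : ∀ k, 0 < s k := fun k => by simp only [s]; positivity
  let χn : ℕ → E → ℝ := fun k x => χ (s k • x)
  have hχn_smooth : ∀ k, ContDiff ℝ ∞ (χn k) := fun k => hχs.comp (contDiff_const_smul _)
  have hχn_fd : ∀ k x, fderiv ℝ (χn k) x = s k • fderiv ℝ (χ : E → ℝ) (s k • x) := by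
    intro k x
    have h1 : HasFDerivAt (χ : E → ℝ) (fderiv ℝ (χ : E → ℝ) (s k • x)) (s k • x) :=
      (hχs.differentiable (by simp) _).hasFDerivAt
    have h2 : HasFDerivAt (fun x : E => s k • x) (s k • ContinuousLinearMap.id ℝ E) x :=
      (hasFDerivAt_id x).const_smul (s k)
    have h3 := h1.comp x h2
    have h4 := h3.fderiv
    have h5 : (χ : E → ℝ) ∘ (fun x : E => s k • x) = χn k := rfl
    rw [h5] at h4
    rw [h4]
    ext v; simp
  let fn : ℕ → E → ℝ := fun k x => χn k x * f x
  have hfn_smooth : ∀ k, ContDiff ℝ ∞ (fn k) := fun k => (hχn_smooth k).mul hf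
  have hfn_c : ∀ k, HasCompactSupport (fn k) := by
    intro k
    apply HasCompactSupport.mul_right
    exact hχc.comp_homeomorph (Homeomorph.smulOfNeZero (s k) (hs k).ne')
  have hχ01 : ∀ k x, |χn k x| ≤ 1 := by
    intro k x
    rw [abs_of_nonneg χ.nonneg]
    exact χ.le_one
  -- bound on fn
  have hfn_le : ∀ k x, |fn k x| ≤ |f x| := by
    intro k x
    simp only [fn, abs_mul]
    calc |χn k x| * |f x| ≤ 1 * |f x| := by gcongr; exact hχ01 k x
      _ = |f x| := one_mul _
  -- eventually equal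
  have hev : ∀ x, ∀ᶠ k in atTop, fn k =ᶠ[𝓝 x] f := by
    intro x
    obtain ⟨k0, hk0⟩ := exists_nat_gt ‖x‖
    filter_upwards [eventually_ge_atTop k0] with k hk
    have hkx : ‖x‖ < (k : ℝ) + 1 := by
      have : (k0 : ℝ) ≤ k := by exact_mod_cast hk
      linarith
    have hopen : IsOpen {y : E | ‖y‖ < (k : ℝ) + 1} := isOpen_lt continuous_norm continuous_const
    filter_upwards [hopen.mem_nhds hkx] with y hy
    have h1 : χn k y = 1 := by
      apply χ.one_of_mem_closedBall
      rw [mem_closedBall_zero_iff, norm_smul, Real.norm_of_nonneg (hs k).le]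
      simp only [s]
      rw [div_mul_eq_mul_div, one_mul, div_le_one (by positivity)]
      exact le_of_lt hy
    simp only [fn, h1, one_mul]
  -- gradient bound
  let M1 : ℝ := L + K * (|f 0| + 2 * L)
  have hfd_bound : ∀ k x, ‖fderiv ℝ (fn k) x‖ ≤ M1 := by
    intro k x
    have h1 : HasFDerivAt (fn k) (χn k x • fderiv ℝ f x + f x • fderiv ℝ (χn k) x) x :=
      ((hχn_smooth k).differentiable (by simp) x).hasFDerivAt.mul (hfd x).hasFDerivAt
    rw [h1.fderiv]
    refine (norm_add_le _ _).trans ?_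
    rw [norm_smul, norm_smul, Real.norm_eq_abs, Real.norm_eq_abs]
    have h2 : |χn k x| * ‖fderiv ℝ f x‖ ≤ L := by
      calc |χn k x| * ‖fderiv ℝ f x‖ ≤ 1 * L := by
            gcongr
            · exact hχ01 k x
            · exact hfL x
        _ = L := one_mul _
    have h3 : |f x| * ‖fderiv ℝ (χn k) x‖ ≤ K * (|f 0| + 2 * L) := by
      rw [hχn_fd, norm_smul, Real.norm_of_nonneg (hs k).le]
      by_cases hx : ‖s k • x‖ ≤ 2
      · have h4 : s k * ‖x‖ ≤ 2 := by rwa [norm_smul, Real.norm_of_nonneg (hs k).le] at hx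
        have h5 : s k ≤ 1 := by
          simp only [s]; rw [div_le_one (by positivity)]; linarith [Nat.cast_nonneg (α := ℝ) k]
        have h6 := hgrow x
        calc |f x| * (s k * ‖fderiv ℝ (χ : E → ℝ) (s k • x)‖) ≤ (|f 0| + L * ‖x‖) * (s k * K) :=
              mul_le_mul h6 (mul_le_mul_of_nonneg_left (hK _) (hs k).le)
                (mul_nonneg (hs k).le (norm_nonneg _)) (by positivity)
          _ = K * (s k * |f 0| + L * (s k * ‖x‖)) := by ring
          _ ≤ K * (1 * |f 0| + L * 2) := by gcongr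
          _ = K * (|f 0| + 2 * L) := by ring
      · have h7 : fderiv ℝ (χ : E → ℝ) (s k • x) = 0 := by
          have h8 : (χ : E → ℝ) =ᶠ[𝓝 (s k • x)] fun _ => (0 : ℝ) := by
            have hopen : IsOpen {y : E | 2 < ‖y‖} := isOpen_lt continuous_const continuous_norm
            filter_upwards [hopen.mem_nhds (not_le.1 hx)] with y hy
            apply χ.zero_of_le_dist
            rw [dist_zero_right]
            exact le_of_lt hy
          rw [h8.fderiv_eq]
          simp
        rw [h7]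
        simp
        positivity
    simp only [M1]
    linarith
  -- integrability
  have hn1 : Integrable (fun x : E => ‖x‖) m := by
    have h1 : Integrable (fun x : E => 1 + ‖x‖ ^ 2) m := (integrable_const 1).add hm
    refine h1.mono' continuous_norm.aestronglyMeasurable (Eventually.of_forall fun x => ?_)
    rw [norm_norm]
    nlinarith [sq_nonneg (‖x‖ - 1), norm_nonneg x]
  have hgi : Integrable (fun x : E => (|f 0| + L * ‖x‖)) m := (integrable_const _).add (hn1.const_mul L)
  have hgi2 : Integrable (fun x : E => (|f 0| + L * ‖x‖) ^ 2) m := by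
    have : (fun x : E => (|f 0| + L * ‖x‖) ^ 2) =
        fun x => |f 0| ^ 2 + (2 * |f 0| * L) * ‖x‖ + L ^ 2 * ‖x‖ ^ 2 := by
      funext x; ring
    rw [this]
    exact ((integrable_const _).add (hn1.const_mul _)).add (hm.const_mul _)
  have hfi2 : MemLp f 2 m := by
    rw [memLp_two_iff_integrable_sq hf.continuous.aestronglyMeasurable]
    refine hgi2.mono' (hf.continuous.pow 2).aestronglyMeasurable (Eventually.of_forall fun x => ?_)
    rw [Real.norm_eq_abs, abs_pow]
    exact pow_le_pow_left₀ (abs_nonneg _) (hgrow x) 2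
  have hfni2 : ∀ k, MemLp (fn k) 2 m := by
    intro k
    rw [memLp_two_iff_integrable_sq (hfn_smooth k).continuous.aestronglyMeasurable]
    refine hgi2.mono' ((hfn_smooth k).continuous.pow 2).aestronglyMeasurable
      (Eventually.of_forall fun x => ?_)
    rw [Real.norm_eq_abs, abs_pow]
    exact pow_le_pow_left₀ (abs_nonneg _) ((hfn_le k x).trans (hgrow x)) 2
  -- limits
  have hpt : ∀ x, Tendsto (fun k => fn k x) atTop (𝓝 (f x)) := by
    intro x
    apply tendsto_const_nhds.congr'
    filter_upwards [hev x] with k hk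
    exact hk.eq_of_nhds.symm
  have hptd : ∀ x, Tendsto (fun k => ‖fderiv ℝ (fn k) x‖ ^ 2) atTop (𝓝 (‖fderiv ℝ f x‖ ^ 2)) := by
    intro x
    apply tendsto_const_nhds.congr'
    filter_upwards [hev x] with k hk
    rw [hk.fderiv_eq]
  have l1 : Tendsto (fun k => ∫ x, fn k x ∂m) atTop (𝓝 (∫ x, f x ∂m)) := by
    apply tendsto_integral_of_dominated_convergence (fun x => |f 0| + L * ‖x‖)
    · exact fun k => (hfn_smooth k).continuous.aestronglyMeasurable
    · exact hgi
    · intro k; exact Eventually.of_forall fun x => (hfn_le k x).trans (hgrow x)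
    · exact Eventually.of_forall hpt
  have l2 : Tendsto (fun k => ∫ x, (fn k x) ^ 2 ∂m) atTop (𝓝 (∫ x, (f x) ^ 2 ∂m)) := by
    apply tendsto_integral_of_dominated_convergence (fun x => (|f 0| + L * ‖x‖) ^ 2)
    · exact fun k => ((hfn_smooth k).continuous.pow 2).aestronglyMeasurable
    · exact hgi2
    · intro k; exact Eventually.of_forall fun x => by
        rw [Real.norm_eq_abs, abs_pow]
        exact pow_le_pow_left₀ (abs_nonneg _) ((hfn_le k x).trans (hgrow x)) 2
    · exact Eventually.of_forall fun x => (hpt x).pow 2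
  have l3 : Tendsto (fun k => ∫ x, ‖fderiv ℝ (fn k) x‖ ^ 2 ∂m) atTop
      (𝓝 (∫ x, ‖fderiv ℝ f x‖ ^ 2 ∂m)) := by
    apply tendsto_integral_of_dominated_convergence (fun _ => M1 ^ 2)
    · intro k
      exact (((hfn_smooth k).continuous_fderiv (by simp)).norm.pow 2).aestronglyMeasurable
    · exact integrable_const _
    · intro k; exact Eventually.of_forall fun x => by
        rw [Real.norm_eq_abs, abs_of_nonneg (by positivity)]
        exact pow_le_pow_left₀ (norm_nonneg _) (hfd_bound k x) 2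
    · exact Eventually.of_forall hptd
  have l4 : Tendsto (fun k => Var[fn k; m]) atTop (𝓝 (Var[f; m])) := by
    have h1 : ∀ k, Var[fn k; m] = ∫ x, (fn k x) ^ 2 ∂m - (∫ x, fn k x ∂m) ^ 2 := fun k => by
      rw [variance_eq_sub (hfni2 k)]; rfl
    have h2 : Var[f; m] = ∫ x, (f x) ^ 2 ∂m - (∫ x, f x ∂m) ^ 2 := by
      rw [variance_eq_sub hfi2]; rfl
    simp_rw [h1, h2]
    exact l2.sub (l1.pow 2)
  have hfin := (l3.const_mul c).eventually_lt l4 h
  obtain ⟨k, hk⟩ := hfin.exists
  exact lt_poincare_of_test m c hc (fn k) (hfn_smooth k) (hfn_c k) hk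

end Pool.Agent.H770Bary
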