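import Mathlib

set_option autoImplicit false

/-! Definitions for MP_7c2736_pr: strong log-concavity, Poincaré constant, Wasserstein barycenters. -/

namespace Pool.Agent.H770Bary

open MeasureTheory ProbabilityTheory
open scoped ENNReal NNReal ContDiff RealInnerProductSpace

/-- `μ` is `κ`-strongly log-concave: `dμ = Z⁻¹ e^{-V} dx` with `V : ℝⁿ → (-∞, +∞]` proper and lower
semicontinuous, `Z = ∫ e^{-V} ∈ (0, ∞)` and `V - κ |x|² / 2` convex. -/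
def StronglyLogConcave {n : ℕ} (κ : ℝ) (μ : Measure (EuclideanSpace ℝ (Fin n))) : Prop :=
  ∃ V : EuclideanSpace ℝ (Fin n) → EReal,
    (∀ x, V x ≠ ⊥) ∧ (∃ x, V x ≠ ⊤) ∧ LowerSemicontinuous V ∧
    (∀ x y : EuclideanSpace ℝ (Fin n), ∀ a b : ℝ, 0 ≤ a → 0 ≤ b → a + b = 1 →
      V (a • x + b • y) - ((κ * ‖a • x + b • y‖ ^ 2 / 2 : ℝ) : EReal) ≤
        (a : EReal) * (V x - ((κ * ‖x‖ ^ 2 / 2 : ℝ) : EReal)) +
        (b : EReal) * (V y - ((κ * ‖y‖ ^ 2 / 2 : ℝ) : EReal))) ∧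
    0 < ∫⁻ x, EReal.exp (-V x) ∧ ∫⁻ x, EReal.exp (-V x) < ⊤ ∧
    μ = (∫⁻ x, EReal.exp (-V x))⁻¹ • volume.withDensity (fun x => EReal.exp (-V x))

/-- The Poincaré constant: the least `C ∈ [0, ∞]` with `Var_μ f ≤ C ∫ |∇f|² dμ` for all
`f ∈ C_c^∞(ℝⁿ)`. (`‖fderiv ℝ f x‖` is the Euclidean norm of the gradient of `f` at `x`.) -/
noncomputable def poincareConstant {n : ℕ} (μ : Measure (EuclideanSpace ℝ (Fin n))) : ℝ≥0∞ :=
  sInf {C : ℝ≥0∞ | ∀ f : EuclideanSpace ℝ (Fin n) → ℝ, ContDiff ℝ ∞ f → HasCompactSupport f →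
    ENNReal.ofReal (Var[f; μ]) ≤ C * ENNReal.ofReal (∫ x, ‖fderiv ℝ f x‖ ^ 2 ∂μ)}

/-- The squared quadratic Wasserstein distance: the infimum of `∫ |x - y|² dπ` over all couplings
`π` of `μ` and `ν`. -/
noncomputable def W2sq {n : ℕ} (μ ν : Measure (EuclideanSpace ℝ (Fin n))) : ℝ≥0∞ :=
  ⨅ (π : Measure (EuclideanSpace ℝ (Fin n) × EuclideanSpace ℝ (Fin n)))
    (_ : π.map Prod.fst = μ ∧ π.map Prod.snd = ν), ∫⁻ p, ENNReal.ofReal (‖p.1 - p.2‖ ^ 2) ∂π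

/-- `m` is a barycenter of `μ₁, …, μ_N` with weights `w`: a probability measure that minimises
`ν ↦ ∑ w_i W₂²(ν, μ_i)` over all probability measures, with a finite minimum. -/
def IsBarycenter {n N : ℕ} (w : Fin N → ℝ) (μ : Fin N → Measure (EuclideanSpace ℝ (Fin n)))
    (m : Measure (EuclideanSpace ℝ (Fin n))) : Prop :=
  IsProbabilityMeasure m ∧ ∑ i, ENNReal.ofReal (w i) * W2sq m (μ i) < ⊤ ∧
    ∀ ν : Measure (EuclideanSpace ℝ (Fin n)), IsProbabilityMeasure ν →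
      ∑ i, ENNReal.ofReal (w i) * W2sq m (μ i) ≤ ∑ i, ENNReal.ofReal (w i) * W2sq ν (μ i)

/-- `μ` splits off a curvature-saturating Gaussian factor in direction `e` (a unit vector): under
`y ↦ (⟪e, y⟫, y - ⟪e, y⟫ e)`, `μ` becomes `N(⟪e, mean⟫, κ⁻¹) ⊗ ν` for a probability measure `ν`
(automatically carried by the orthogonal complement of `e`). -/
def SplitsOff {n : ℕ} (κ : ℝ) (μ : Measure (EuclideanSpace ℝ (Fin n)))
    (e : EuclideanSpace ℝ (Fin n)) : Prop :=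
  ∃ ν : Measure (EuclideanSpace ℝ (Fin n)), IsProbabilityMeasure ν ∧
    μ.map (fun y => ((⟪e, y⟫ : ℝ), y - (⟪e, y⟫ : ℝ) • e)) =
      (gaussianReal (∫ y, (⟪e, y⟫ : ℝ) ∂μ) (Real.toNNReal κ⁻¹)).prod ν

end Pool.Agent.H770Bary
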