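import Pool.Agent.H770Bary.Defs

set_option autoImplicit false

/-! The test function `z₁ + τ sin z₂ sin z₃` and its gradient. -/

namespace Pool.Agent.H770Bary

open MeasureTheory ProbabilityTheory Filter Topology Set
open scoped ENNReal NNReal RealInnerProductSpace ContDiff

/-- The test function. -/
noncomputable def tf (τ : ℝ) (z : EuclideanSpace ℝ (Fin 4)) : ℝ :=
  z 1 + τ * (Real.sin (z 2) * Real.sin (z 3))

theorem contDiff_tf (τ : ℝ) : ContDiff ℝ ∞ (tf τ) := by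
  unfold tf
  have h : ∀ i : Fin 4, ContDiff ℝ ∞ (fun z : EuclideanSpace ℝ (Fin 4) => z i) := fun i =>
    (EuclideanSpace.proj (𝕜 := ℝ) i : EuclideanSpace ℝ (Fin 4) →L[ℝ] ℝ).contDiff
  exact (h 1).add (contDiff_const.mul ((Real.contDiff_sin.comp (h 2)).mul (Real.contDiff_sin.comp (h 3))))

theorem hasFDerivAt_tf (τ : ℝ) (z : EuclideanSpace ℝ (Fin 4)) :
    HasFDerivAt (tf τ) ((EuclideanSpace.proj (𝕜 := ℝ) 1 : EuclideanSpace ℝ (Fin 4) →L[ℝ] ℝ) +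
      τ • (Real.sin (z 2) • (Real.cos (z 3) • (EuclideanSpace.proj (𝕜 := ℝ) 3 : EuclideanSpace ℝ (Fin 4) →L[ℝ] ℝ)) +
        Real.sin (z 3) • (Real.cos (z 2) • (EuclideanSpace.proj (𝕜 := ℝ) 2 : EuclideanSpace ℝ (Fin 4) →L[ℝ] ℝ)))) z := by
  have h : ∀ i : Fin 4, HasFDerivAt (fun z : EuclideanSpace ℝ (Fin 4) => z i)
      (EuclideanSpace.proj (𝕜 := ℝ) i : EuclideanSpace ℝ (Fin 4) →L[ℝ] ℝ) z := fun i =>
    (EuclideanSpace.proj (𝕜 := ℝ) i : EuclideanSpace ℝ (Fin 4) →L[ℝ] ℝ).hasFDerivAt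
  exact (h 1).add (((h 2).sin.mul (h 3).sin).const_mul τ)

theorem norm_fderiv_tf (τ : ℝ) (z : EuclideanSpace ℝ (Fin 4)) :
    ‖fderiv ℝ (tf τ) z‖ ≤ √(1 + τ ^ 2) := by
  rw [(hasFDerivAt_tf τ z).fderiv]
  refine ContinuousLinearMap.opNorm_le_bound _ (Real.sqrt_nonneg _) fun w => ?_
  have hw : ‖w‖ ^ 2 = (w 0) ^ 2 + (w 1) ^ 2 + (w 2) ^ 2 + (w 3) ^ 2 := by
    rw [EuclideanSpace.real_norm_sq_eq, Fin.sum_univ_four]
  have e : (((EuclideanSpace.proj (𝕜 := ℝ) 1 : EuclideanSpace ℝ (Fin 4) →L[ℝ] ℝ) +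
      τ • (Real.sin (z 2) • (Real.cos (z 3) • (EuclideanSpace.proj (𝕜 := ℝ) 3 : EuclideanSpace ℝ (Fin 4) →L[ℝ] ℝ)) +
        Real.sin (z 3) • (Real.cos (z 2) • (EuclideanSpace.proj (𝕜 := ℝ) 2 : EuclideanSpace ℝ (Fin 4) →L[ℝ] ℝ)))) w) =
      w 1 + τ * (Real.cos (z 2) * Real.sin (z 3)) * w 2 + τ * (Real.sin (z 2) * Real.cos (z 3)) * w 3 := by
    simp; ring
  rw [e, Real.norm_eq_abs]
  apply abs_le_of_sq_le_sq _ (by positivity)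
  rw [mul_pow, Real.sq_sqrt (by positivity), hw]
  set P := Real.cos (z 2) * Real.sin (z 3) with hP
  set Q := Real.sin (z 2) * Real.cos (z 3) with hQ
  have hPQ : P ^ 2 + Q ^ 2 ≤ 1 := by
    have h2 := Real.sin_sq_add_cos_sq (z 2)
    have h3 := Real.sin_sq_add_cos_sq (z 3)
    have e1 : P ^ 2 + Q ^ 2 = Real.cos (z 2) ^ 2 * Real.sin (z 3) ^ 2 +
        Real.sin (z 2) ^ 2 * Real.cos (z 3) ^ 2 := by rw [hP, hQ]; ring
    have c2 : Real.cos (z 2) ^ 2 = 1 - Real.sin (z 2) ^ 2 := by linarith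
    have c3 : Real.cos (z 3) ^ 2 = 1 - Real.sin (z 3) ^ 2 := by linarith
    rw [e1, c2, c3]
    have s2 : 0 ≤ Real.sin (z 2) ^ 2 := sq_nonneg _
    have s3 : 0 ≤ Real.sin (z 3) ^ 2 := sq_nonneg _
    have t2 : 0 ≤ 1 - Real.sin (z 2) ^ 2 := by rw [← c2]; positivity
    have t3 : 0 ≤ 1 - Real.sin (z 3) ^ 2 := by rw [← c3]; positivity
    nlinarith [mul_nonneg s2 s3, mul_nonneg t2 t3]
  -- Cauchy-Schwarz
  have cs : (w 1 + τ * P * w 2 + τ * Q * w 3) ^ 2 ≤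
      (1 + (τ * P) ^ 2 + (τ * Q) ^ 2) * ((w 1) ^ 2 + (w 2) ^ 2 + (w 3) ^ 2) := by
    nlinarith [sq_nonneg (w 2 - τ * P * w 1), sq_nonneg (w 3 - τ * Q * w 1),
      sq_nonneg (τ * P * w 3 - τ * Q * w 2)]
  refine cs.trans ?_
  have h1 : 1 + (τ * P) ^ 2 + (τ * Q) ^ 2 ≤ 1 + τ ^ 2 := by
    have : (τ * P) ^ 2 + (τ * Q) ^ 2 = τ ^ 2 * (P ^ 2 + Q ^ 2) := by ring
    nlinarith [mul_le_mul_of_nonneg_left hPQ (sq_nonneg τ)]
  have h2 : (w 1) ^ 2 + (w 2) ^ 2 + (w 3) ^ 2 ≤ (w 0) ^ 2 + (w 1) ^ 2 + (w 2) ^ 2 + (w 3) ^ 2 := by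
    nlinarith [sq_nonneg (w 0)]
  exact mul_le_mul h1 h2 (by positivity) (by positivity)

end Pool.Agent.H770Bary
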