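import Pool.Agent.H770Bary.Model

set_option autoImplicit false

/-! Laws of the images of the base measure. -/

namespace Pool.Agent.H770Bary

open MeasureTheory ProbabilityTheory Filter Topology Set
open scoped ENNReal NNReal

/-- Image of a measure with a density. -/
theorem map_withDensity_comp {Ω Y : Type*} [MeasurableSpace Ω] [MeasurableSpace Y]
    (P : Measure Ω) (φ : Ω → Y) (hφ : Measurable φ) (r : Y → ℝ≥0∞) (hr : Measurable r) :
    (P.withDensity (fun x => r (φ x))).map φ = (P.map φ).withDensity r := by
  ext s hs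
  rw [Measure.map_apply hφ hs, withDensity_apply _ (hφ hs), withDensity_apply _ hs,
    setLIntegral_map hs hr hφ]

/-- Replace the coordinate `j` by the independent variable, and scale. -/
def repl (c : Fin 4 → ℝ) (j : Fin 4) (p : (Fin 4 → ℝ) × ℝ) : Fin 4 → ℝ :=
  fun i => if i = j then c i * p.2 else c i * p.1 i

theorem measurable_repl (c : Fin 4 → ℝ) (j : Fin 4) : Measurable (repl c j) := by
  apply measurable_pi_lambda
  intro i
  unfold repl
  by_cases h : i = j
  · simp only [h, if_true]
    exact measurable_snd.const_mul _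
  · simp only [h, if_false]
    exact ((measurable_pi_apply i).comp measurable_fst).const_mul _

theorem gaussian_preimage (c : ℝ) (v : ℝ≥0) (s : Set ℝ) (hs : MeasurableSet s) :
    gaussianReal 0 v ((fun x => c * x) ⁻¹' s) = gaussianReal 0 (Real.toNNReal (c ^ 2) * v) s := by
  have h := gaussianReal_map_const_mul (μ := 0) (v := v) c
  have h3 : (NNReal.mk (c ^ 2) (sq_nonneg _)) = Real.toNNReal (c ^ 2) := by
    apply NNReal.eq
    rw [Real.coe_toNNReal _ (sq_nonneg _)]
    rfl
  rw [mul_zero] at h
  have h4 : gaussianReal 0 ((NNReal.mk (c ^ 2) (sq_nonneg _)) * v) =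
    gaussianReal 0 (Real.toNNReal (c ^ 2) * v) := congrArg (fun t => gaussianReal 0 (t * v)) h3
  rw [← h4]
  have h5 : (gaussianReal 0 v).map (fun x => c * x) s = gaussianReal 0 v ((fun x => c * x) ⁻¹' s) :=
    Measure.map_apply (by fun_prop) hs
  rw [← h5]
  exact congrArg (fun m : Measure ℝ => m s) h

theorem gp_repl (v : Fin 4 → ℝ≥0) (c : Fin 4 → ℝ) (j : Fin 4) :
    ((gp v).prod (gaussianReal 0 1)).map (repl c j) =
      gp (fun i => Real.toNNReal ((c i) ^ 2) * (if i = j then 1 else v i)) := by
  symm
  unfold gp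
  refine Measure.pi_eq fun s hs => ?_
  rw [Measure.map_apply (measurable_repl c j) (MeasurableSet.univ_pi hs)]
  have h1 : (repl c j) ⁻¹' (univ.pi s) =
      (univ.pi (fun i => if i = j then univ else (fun x => c i * x) ⁻¹' (s i))) ×ˢ
        ((fun x => c j * x) ⁻¹' (s j)) := by
    ext p
    simp only [mem_preimage, Set.mem_pi, mem_univ, true_implies, mem_prod, repl]
    constructor
    · intro h
      refine ⟨fun i => ?_, ?_⟩
      · by_cases hi : i = j
        · simp [hi]
        · have := h i
          simp only [hi, if_false] at this ⊢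
          exact this
      · have := h j
        simpa using this
    · rintro ⟨h, h'⟩ i
      by_cases hi : i = j
      · subst hi; simpa using h'
      · have := h i
        simp only [hi, if_false] at this ⊢
        exact this
  rw [h1, Measure.prod_prod, Measure.pi_pi, gaussian_preimage _ _ _ (hs j),
    ← Finset.mul_prod_erase Finset.univ _ (Finset.mem_univ j),
    ← Finset.mul_prod_erase Finset.univ (fun i => gaussianReal 0
      (Real.toNNReal ((c i) ^ 2) * (if i = j then 1 else v i)) (s i)) (Finset.mem_univ j)]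
  simp only [if_true, measure_univ, one_mul]
  rw [mul_comm]
  congr 1
  refine Finset.prod_congr rfl fun i hi => ?_
  have hij : i ≠ j := Finset.ne_of_mem_erase hi
  simp only [hij, if_false]
  exact gaussian_preimage _ _ _ (hs i)

/-- The base measure and the base probability space. -/
noncomputable def rb : Measure (Fin 4 → ℝ) := rho0 1

instance : IsProbabilityMeasure rb := by unfold rb; infer_instance

noncomputable def Pb : Measure ((Fin 4 → ℝ) × ℝ) := rb.prod (gaussianReal 0 1)

instance : IsProbabilityMeasure Pb := by unfold Pb; infer_instance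

theorem Pb_eq : Pb = ((gp (vr 1)).prod (gaussianReal 0 1)).withDensity (fun p => densE p.1) := by
  unfold Pb rb rho0
  exact prod_withDensity_left measurable_densE

theorem Pb_map_of_flip (F : Fin 4 → ℝ) (hF : ∀ i, F i ^ 2 = 1)
    (hd : ∀ z, densE z + densE (scl F z) = 2) {Y : Type*} [MeasurableSpace Y]
    (ψ : (Fin 4 → ℝ) × ℝ → Y) (hψ : Measurable ψ) (h : ∀ z g, ψ (scl F z, g) = ψ (z, g)) :
    Pb.map ψ = ((gp (vr 1)).prod (gaussianReal 0 1)).map ψ := by
  rw [Pb_eq]
  refine map_withDensity_of_symm _ (Prod.map (scl F) id) ?_ _ (measurable_densE.comp measurable_fst)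
    (fun x => hd x.1) ψ hψ (fun x => h x.1 x.2)
  exact (measurePreserving_scl_of_sq_one _ _ hF).prod (MeasurePreserving.id _)

theorem Pb_repl3 (c : Fin 4 → ℝ) : Pb.map (repl c 3) =
    gp (fun i => Real.toNNReal ((c i) ^ 2) * (if i = 3 then 1 else vr 1 i)) := by
  rw [Pb_map_of_flip flip3 flip3_sq densE_flip3 _ (measurable_repl c 3), gp_repl]
  intro z g
  funext i
  fin_cases i <;> simp [repl, scl, flip3]

theorem Pb_repl2 (c : Fin 4 → ℝ) : Pb.map (repl c 2) =
    gp (fun i => Real.toNNReal ((c i) ^ 2) * (if i = 2 then 1 else vr 1 i)) := by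
  rw [Pb_map_of_flip flip2 flip2_sq densE_flip2 _ (measurable_repl c 2), gp_repl]
  intro z g
  funext i
  fin_cases i <;> simp [repl, scl, flip2]

end Pool.Agent.H770Bary
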