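import Pool.Agent.H770Bary.Conv

set_option autoImplicit false

/-! The perturbed product Gaussian `rho0` and its marginals. -/

namespace Pool.Agent.H770Bary

open MeasureTheory ProbabilityTheory Filter Topology Set
open scoped ENNReal NNReal

/-- The density as an extended nonnegative function. -/
noncomputable def densE (z : Fin 4 → ℝ) : ℝ≥0∞ := ENNReal.ofReal (dens z)

theorem measurable_densE : Measurable densE := continuous_dens.measurable.ennreal_ofReal

/-- Flip of the coordinates. -/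
def flip3 : Fin 4 → ℝ := ![1, 1, 1, -1]
def flip2 : Fin 4 → ℝ := ![1, 1, -1, 1]

theorem flip3_sq : ∀ i, flip3 i ^ 2 = 1 := by
  intro i; fin_cases i <;> simp [flip3]

theorem flip2_sq : ∀ i, flip2 i ^ 2 = 1 := by
  intro i; fin_cases i <;> simp [flip2]

theorem densE_flip3 (z : Fin 4 → ℝ) : densE z + densE (scl flip3 z) = 2 := by
  unfold densE
  rw [← ENNReal.ofReal_add (dens_pos _).le (dens_pos _).le]
  have : dens z + dens (scl flip3 z) = 2 := by
    simp [dens, scl, flip3, q3, Real.sin_neg]; ring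
  rw [this]; norm_num

theorem densE_flip2 (z : Fin 4 → ℝ) : densE z + densE (scl flip2 z) = 2 := by
  unfold densE
  rw [← ENNReal.ofReal_add (dens_pos _).le (dens_pos _).le]
  have : dens z + dens (scl flip2 z) = 2 := by
    simp [dens, scl, flip2, q3, Real.sin_neg]; ring
  rw [this]; norm_num

/-- The perturbed product Gaussian with variances `b, 1, 1/4, 1/4`. -/
noncomputable def vr (b : ℝ≥0) : Fin 4 → ℝ≥0 := ![b, 1, 1 / 4, 1 / 4]

noncomputable def rho0 (b : ℝ≥0) : Measure (Fin 4 → ℝ) := (gp (vr b)).withDensity densE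

theorem rho0_map3 (b : ℝ≥0) {Y : Type*} [MeasurableSpace Y] (ψ : (Fin 4 → ℝ) → Y)
    (hψ : Measurable ψ) (h : ∀ z, ψ (scl flip3 z) = ψ z) : (rho0 b).map ψ = (gp (vr b)).map ψ :=
  map_withDensity_of_symm _ _ (measurePreserving_scl_of_sq_one _ _ flip3_sq) _ measurable_densE
    densE_flip3 ψ hψ h

theorem rho0_map2 (b : ℝ≥0) {Y : Type*} [MeasurableSpace Y] (ψ : (Fin 4 → ℝ) → Y)
    (hψ : Measurable ψ) (h : ∀ z, ψ (scl flip2 z) = ψ z) : (rho0 b).map ψ = (gp (vr b)).map ψ :=
  map_withDensity_of_symm _ _ (measurePreserving_scl_of_sq_one _ _ flip2_sq) _ measurable_densE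
    densE_flip2 ψ hψ h

instance (b : ℝ≥0) : IsProbabilityMeasure (rho0 b) := by
  have h := rho0_map3 b (fun _ => (0 : ℝ)) measurable_const (fun _ => rfl)
  have h1 : (rho0 b).map (fun _ => (0 : ℝ)) univ = 1 := by
    rw [h, Measure.map_apply measurable_const MeasurableSet.univ]; simp
  rw [Measure.map_apply measurable_const MeasurableSet.univ] at h1
  exact ⟨by simpa using h1⟩

theorem gp_map_eval (v : Fin 4 → ℝ≥0) (i : Fin 4) :
    (gp v).map (fun z => z i) = gaussianReal 0 (v i) := by
  have h := (measurePreserving_eval (fun i => gaussianReal 0 (v i)) i).map_eq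
  exact h

theorem rho0_map_eval (b : ℝ≥0) (i : Fin 4) :
    (rho0 b).map (fun z => z i) = gaussianReal 0 (vr b i) := by
  rw [← gp_map_eval (vr b) i]
  have hm : Measurable fun z : Fin 4 → ℝ => z i := measurable_pi_apply i
  by_cases hi : i = 3
  · apply rho0_map2 b _ hm
    intro z; subst hi; simp [scl, flip2]
  · apply rho0_map3 b _ hm
    intro z
    fin_cases i <;> simp_all [scl, flip3]

theorem lintegral_sq_gaussian (v : ℝ≥0) :
    ∫⁻ x, ENNReal.ofReal (x ^ 2) ∂(gaussianReal 0 v) = v := by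
  have hint : Integrable (fun x : ℝ => x ^ 2) (gaussianReal 0 v) :=
    (memLp_id_gaussianReal (μ := 0) (v := v) 2).integrable_sq
  rw [← ofReal_integral_eq_lintegral_ofReal hint (Eventually.of_forall fun x => sq_nonneg x)]
  have h1 : ∫ x, x ^ 2 ∂(gaussianReal 0 v) = v := by
    have h2 := variance_id_gaussianReal (μ := 0) (v := v)
    rw [variance_eq_sub (memLp_id_gaussianReal (μ := 0) (v := v) 2)] at h2
    have h3 : ∫ x, x ∂(gaussianReal 0 v) = 0 := integral_id_gaussianReal
    simpa [h3] using h2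
  rw [h1]; simp

theorem rho0_lintegral_sq (b : ℝ≥0) (i : Fin 4) :
    ∫⁻ z, ENNReal.ofReal ((z i) ^ 2) ∂(rho0 b) = vr b i := by
  have hm : Measurable fun z : Fin 4 → ℝ => z i := measurable_pi_apply i
  rw [← lintegral_sq_gaussian, ← rho0_map_eval b i,
    lintegral_map (by fun_prop) hm]

theorem gp_lintegral_sq (v : Fin 4 → ℝ≥0) (i : Fin 4) :
    ∫⁻ z, ENNReal.ofReal ((z i) ^ 2) ∂(gp v) = v i := by
  have hm : Measurable fun z : Fin 4 → ℝ => z i := measurable_pi_apply i
  rw [← lintegral_sq_gaussian, ← gp_map_eval v i,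
    lintegral_map (by fun_prop) hm]

end Pool.Agent.H770Bary
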