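import Pool.Agent.H770Bary.Three

set_option autoImplicit false

/-! Second moments, square integrability, real costs. -/

namespace Pool.Agent.H770Bary

open MeasureTheory ProbabilityTheory Filter Topology Set
open scoped ENNReal NNReal RealInnerProductSpace

theorem measurable_coord (j : Fin 4) : Measurable fun y : EuclideanSpace ℝ (Fin 4) => y j := by
  fun_prop

theorem mu1_lintegral_sq (α θ : ℝ) (j : Fin 4) :
    ∫⁻ y, ENNReal.ofReal ((y j) ^ 2) ∂(mu1 α θ) = v1 α θ j := by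
  rw [mu1_eq, mk4_one, lintegral_map (by fun_prop) measurable_toE]
  exact gp_lintegral_sq (v1 α θ) j

theorem mu2_lintegral_sq (α θ : ℝ) (j : Fin 4) :
    ∫⁻ y, ENNReal.ofReal ((y j) ^ 2) ∂(mu2 α θ) = v2 α θ j := by
  rw [mu2_eq, mk4_one, lintegral_map (by fun_prop) measurable_toE]
  exact gp_lintegral_sq (v2 α θ) j

theorem rb_lintegral_sq (j : Fin 4) (k : ℝ) :
    ∫⁻ z, ENNReal.ofReal ((k * z j) ^ 2) ∂rb = ENNReal.ofReal (k ^ 2) * vr 1 j := by
  rw [← rho0_lintegral_sq 1 j, ← lintegral_const_mul _ (by fun_prop)]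
  refine lintegral_congr fun z => ?_
  rw [← ENNReal.ofReal_mul (sq_nonneg k)]
  congr 1
  ring

theorem mu3_lintegral_sq (δ : ℝ) (j : Fin 4) :
    ∫⁻ y, ENNReal.ofReal ((y j) ^ 2) ∂(mu3 δ) = v3 δ j := by
  unfold mu3
  rw [lintegral_map (by fun_prop) measurable_toE, lintegral_map (by fun_prop) (measurable_scl _)]
  have h := rb_lintegral_sq j (c3 δ j)
  simp only [scl]
  rw [h]
  simp only [v3]
  rw [ENNReal.coe_mul]
  rfl

/-- Square integrability from finite coordinate moments. -/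
theorem memLp_of_coord (μ : Measure (EuclideanSpace ℝ (Fin 4))) (v : Fin 4 → ℝ≥0)
    (h : ∀ j, ∫⁻ y, ENNReal.ofReal ((y j) ^ 2) ∂μ = v j) :
    MemLp (fun y : EuclideanSpace ℝ (Fin 4) => y) 2 μ ∧
      (∫⁻ y, ENNReal.ofReal (‖y‖ ^ 2) ∂μ < ⊤) := by
  have h1 : ∫⁻ y, ENNReal.ofReal (‖y‖ ^ 2) ∂μ < ⊤ := by
    have h2 : ∀ y : EuclideanSpace ℝ (Fin 4), ENNReal.ofReal (‖y‖ ^ 2) =
        ∑ j, ENNReal.ofReal ((y j) ^ 2) := by
      intro y
      rw [EuclideanSpace.real_norm_sq_eq, ENNReal.ofReal_sum_of_nonneg (fun i _ => sq_nonneg _)]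
    simp_rw [h2]
    rw [lintegral_finsetSum _ (fun i _ => by fun_prop)]
    simp_rw [h]
    rw [ENNReal.sum_lt_top]
    intro i _
    exact ENNReal.coe_lt_top
  refine ⟨?_, h1⟩
  rw [memLp_two_iff_integrable_sq_norm (by fun_prop)]
  refine ⟨by fun_prop, ?_⟩
  rw [hasFiniteIntegral_iff_ofReal (Eventually.of_forall fun y => by positivity)]
  exact h1

theorem integral_sq_of_coord (μ : Measure (EuclideanSpace ℝ (Fin 4))) (v : Fin 4 → ℝ≥0)
    (h : ∀ j, ∫⁻ y, ENNReal.ofReal ((y j) ^ 2) ∂μ = v j) (j : Fin 4) :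
    ∫ y, (y j) ^ 2 ∂μ = v j := by
  rw [integral_eq_lintegral_of_nonneg_ae (Eventually.of_forall fun y => sq_nonneg _) (by fun_prop), h j]
  rfl

theorem memLp_coord {Ω : Type*} [MeasurableSpace Ω] (P : Measure Ω)
    (X : Ω → EuclideanSpace ℝ (Fin 4)) (hX : MemLp X 2 P) (j : Fin 4) :
    MemLp (fun ω => X ω j) 2 P := by
  refine hX.mono ?_ (Eventually.of_forall fun ω => ?_)
  · exact (measurable_coord j).comp_aemeasurable hX.1.aemeasurable |>.aestronglyMeasurable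
  · exact PiLp.norm_apply_le (X ω) j

/-- The exact expansion behind the stability estimate. -/
theorem expand_sq {Ω : Type*} [MeasurableSpace Ω] (P : Measure Ω) (a b : Ω → ℝ) (ha : MemLp a 2 P)
    (hb : MemLp b 2 P) (c k : ℝ) (hck : c * k = 1) :
    ∫ ω, (a ω - b ω) ^ 2 ∂P =
      (1 - c) * ∫ ω, (a ω) ^ 2 ∂P + (1 - k) * ∫ ω, (b ω) ^ 2 ∂P + c * ∫ ω, (a ω - k * b ω) ^ 2 ∂P := by
  have hab : MemLp (fun ω => a ω - k * b ω) 2 P := ha.sub (hb.const_mul k)
  have i1 : Integrable (fun ω => (1 - c) * (a ω) ^ 2) P := ha.integrable_sq.const_mul _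
  have i2 : Integrable (fun ω => (1 - k) * (b ω) ^ 2) P := hb.integrable_sq.const_mul _
  have i3 : Integrable (fun ω => c * (a ω - k * b ω) ^ 2) P := hab.integrable_sq.const_mul _
  have i12 : Integrable (fun ω => (1 - c) * (a ω) ^ 2 + (1 - k) * (b ω) ^ 2) P := i1.add i2
  rw [← integral_const_mul, ← integral_const_mul, ← integral_const_mul,
    ← integral_add i1 i2, ← integral_add i12 i3]
  refine integral_congr_ae (Eventually.of_forall fun ω => ?_)
  simp only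
  have : c * (a ω - k * b ω) ^ 2 = c * (a ω) ^ 2 - 2 * (c * k) * (a ω * b ω) + (c * k) * k * (b ω) ^ 2 := by
    ring
  rw [this, hck]; ring

theorem expand_sq_le {Ω : Type*} [MeasurableSpace Ω] (P : Measure Ω) (a b : Ω → ℝ) (ha : MemLp a 2 P)
    (hb : MemLp b 2 P) (c k : ℝ) (hc : 0 ≤ c) (hck : c * k = 1) :
    (1 - c) * ∫ ω, (a ω) ^ 2 ∂P + (1 - k) * ∫ ω, (b ω) ^ 2 ∂P ≤ ∫ ω, (a ω - b ω) ^ 2 ∂P := by
  rw [expand_sq P a b ha hb c k hck]
  have : 0 ≤ ∫ ω, (a ω - k * b ω) ^ 2 ∂P := integral_nonneg fun ω => sq_nonneg _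
  nlinarith [mul_nonneg hc this]

theorem cost_eq (π : Measure (EuclideanSpace ℝ (Fin 4) × EuclideanSpace ℝ (Fin 4)))
    (h1 : MemLp (fun p : EuclideanSpace ℝ (Fin 4) × EuclideanSpace ℝ (Fin 4) => p.1) 2 π)
    (h2 : MemLp (fun p : EuclideanSpace ℝ (Fin 4) × EuclideanSpace ℝ (Fin 4) => p.2) 2 π) :
    cost π = ENNReal.ofReal (∑ j, ∫ p, (p.1 j - p.2 j) ^ 2 ∂π) := by
  have hj : ∀ j : Fin 4, Integrable (fun p : EuclideanSpace ℝ (Fin 4) × EuclideanSpace ℝ (Fin 4) =>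
      (p.1 j - p.2 j) ^ 2) π := fun j =>
    ((memLp_coord π _ h1 j).sub (memLp_coord π _ h2 j)).integrable_sq
  rw [← integral_finsetSum _ (fun j _ => hj j), ofReal_integral_eq_lintegral_ofReal
    (integrable_finsetSum _ fun j _ => hj j)
    (Eventually.of_forall fun p => Finset.sum_nonneg fun j _ => sq_nonneg _)]
  unfold cost
  refine lintegral_congr fun p => ?_
  congr 1
  rw [EuclideanSpace.real_norm_sq_eq]
  rfl

end Pool.Agent.H770Bary
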