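import Pool.Agent.H770Bary.Mom

set_option autoImplicit false

/-! The reference couplings and their costs. -/

namespace Pool.Agent.H770Bary

open MeasureTheory ProbabilityTheory Filter Topology Set
open scoped ENNReal NNReal RealInnerProductSpace

noncomputable def cx (B : ℝ) : Fin 4 → ℝ := ![B, 1, 1, 1]

noncomputable def xi (B : ℝ) (p : (Fin 4 → ℝ) × ℝ) : EuclideanSpace ℝ (Fin 4) :=
  toE (scl (cx B) p.1)

theorem measurable_xi (B : ℝ) : Measurable (xi B) :=
  measurable_toE.comp ((measurable_scl _).comp measurable_fst)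

noncomputable def nuref (B : ℝ) : Measure (EuclideanSpace ℝ (Fin 4)) := Pb.map (xi B)

instance (B : ℝ) : IsProbabilityMeasure (nuref B) :=
  Measure.isProbabilityMeasure_map (measurable_xi B).aemeasurable

noncomputable def ref1 (B α θ : ℝ) : Measure (EuclideanSpace ℝ (Fin 4) × EuclideanSpace ℝ (Fin 4)) :=
  Pb.map (fun p => (xi B p, toE (repl (c1 α θ) 3 p)))
noncomputable def ref2 (B α θ : ℝ) : Measure (EuclideanSpace ℝ (Fin 4) × EuclideanSpace ℝ (Fin 4)) :=
  Pb.map (fun p => (xi B p, toE (repl (c2 α θ) 2 p)))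
noncomputable def ref3 (B δ : ℝ) : Measure (EuclideanSpace ℝ (Fin 4) × EuclideanSpace ℝ (Fin 4)) :=
  Pb.map (fun p => (xi B p, toE (scl (c3 δ) p.1)))

theorem Pb_map_fst : Pb.map Prod.fst = rb := by
  unfold Pb
  have := Measure.map_fst_prod (μ := rb) (ν := gaussianReal 0 1)
  rw [this]; simp

theorem Pb_map_snd : Pb.map Prod.snd = gaussianReal 0 1 := by
  unfold Pb
  have := Measure.map_snd_prod (μ := rb) (ν := gaussianReal 0 1)
  rw [this]; simp

theorem m_r1 (B α θ : ℝ) : Measurable fun p : (Fin 4 → ℝ) × ℝ =>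
    (xi B p, toE (repl (c1 α θ) 3 p)) :=
  (measurable_xi B).prodMk (measurable_toE.comp (measurable_repl _ _))
theorem m_r2 (B α θ : ℝ) : Measurable fun p : (Fin 4 → ℝ) × ℝ =>
    (xi B p, toE (repl (c2 α θ) 2 p)) :=
  (measurable_xi B).prodMk (measurable_toE.comp (measurable_repl _ _))
theorem m_r3 (B δ : ℝ) : Measurable fun p : (Fin 4 → ℝ) × ℝ =>
    (xi B p, toE (scl (c3 δ) p.1)) :=
  (measurable_xi B).prodMk (measurable_toE.comp ((measurable_scl _).comp measurable_fst))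

theorem ref1_marg (B α θ : ℝ) : (ref1 B α θ).map Prod.fst = nuref B ∧
    (ref1 B α θ).map Prod.snd = mu1 α θ := by
  unfold ref1 nuref mu1
  refine ⟨?_, ?_⟩
  · rw [Measure.map_map measurable_fst (m_r1 B α θ)]; rfl
  · rw [Measure.map_map measurable_snd (m_r1 B α θ), Measure.map_map measurable_toE (measurable_repl _ _)]
    rfl

theorem ref2_marg (B α θ : ℝ) : (ref2 B α θ).map Prod.fst = nuref B ∧
    (ref2 B α θ).map Prod.snd = mu2 α θ := by
  unfold ref2 nuref mu2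
  refine ⟨?_, ?_⟩
  · rw [Measure.map_map measurable_fst (m_r2 B α θ)]; rfl
  · rw [Measure.map_map measurable_snd (m_r2 B α θ), Measure.map_map measurable_toE (measurable_repl _ _)]
    rfl

theorem ref3_marg (B δ : ℝ) : (ref3 B δ).map Prod.fst = nuref B ∧
    (ref3 B δ).map Prod.snd = mu3 δ := by
  unfold ref3 nuref mu3
  refine ⟨?_, ?_⟩
  · rw [Measure.map_map measurable_fst (m_r3 B δ)]; rfl
  · rw [Measure.map_map measurable_snd (m_r3 B δ), ← Pb_map_fst,
      Measure.map_map (measurable_scl _) measurable_fst,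
      Measure.map_map measurable_toE ((measurable_scl _).comp measurable_fst)]
    rfl

theorem Pb_lintegral_fst (f : (Fin 4 → ℝ) → ℝ≥0∞) (hf : Measurable f) :
    ∫⁻ p, f p.1 ∂Pb = ∫⁻ z, f z ∂rb := by
  rw [← Pb_map_fst, lintegral_map hf measurable_fst]

theorem Pb_lintegral_snd (f : ℝ → ℝ≥0∞) (hf : Measurable f) :
    ∫⁻ p, f p.2 ∂Pb = ∫⁻ z, f z ∂(gaussianReal 0 1) := by
  rw [← Pb_map_snd, lintegral_map hf measurable_snd]

theorem vr_coe (j : Fin 4) (w : ℝ) (hw : 0 ≤ w) (h : (vr 1 j : ℝ) = w) :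
    ((vr 1 j : ℝ≥0) : ℝ≥0∞) = ENNReal.ofReal w := by
  rw [← h, ENNReal.ofReal_coe_nnreal]

theorem ref_coord (j : Fin 4) (k w : ℝ) (hw : 0 ≤ w) (h : (vr 1 j : ℝ) = w) :
    ∫⁻ p, ENNReal.ofReal ((k * p.1 j) ^ 2) ∂Pb = ENNReal.ofReal (k ^ 2 * w) := by
  rw [Pb_lintegral_fst (fun z => ENNReal.ofReal ((k * z j) ^ 2)) (by fun_prop), rb_lintegral_sq,
    vr_coe j w hw h, ← ENNReal.ofReal_mul (sq_nonneg k)]

theorem ref_mixed (j : Fin 4) (θ w : ℝ) (hθ : 0 < θ) (hw : 0 ≤ w) (h : (vr 1 j : ℝ) = w) :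
    ∫⁻ p, ENNReal.ofReal ((p.1 j - θ * p.2) ^ 2) ∂Pb ≤
      ENNReal.ofReal ((1 + θ) * w + (θ ^ 2 + θ)) := by
  have h1 : ∀ p : (Fin 4 → ℝ) × ℝ, ENNReal.ofReal ((p.1 j - θ * p.2) ^ 2) ≤
      ENNReal.ofReal (1 + θ) * ENNReal.ofReal ((1 * p.1 j) ^ 2) +
      ENNReal.ofReal (θ ^ 2 + θ) * ENNReal.ofReal (p.2 ^ 2) := by
    intro p
    rw [← ENNReal.ofReal_mul (by positivity), ← ENNReal.ofReal_mul (by positivity),
      ← ENNReal.ofReal_add (by positivity) (by positivity)]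
    apply ENNReal.ofReal_le_ofReal
    nlinarith [mul_nonneg hθ.le (sq_nonneg (p.1 j + p.2))]
  calc ∫⁻ p, ENNReal.ofReal ((p.1 j - θ * p.2) ^ 2) ∂Pb
      ≤ ∫⁻ p, (ENNReal.ofReal (1 + θ) * ENNReal.ofReal ((1 * p.1 j) ^ 2) +
          ENNReal.ofReal (θ ^ 2 + θ) * ENNReal.ofReal (p.2 ^ 2)) ∂Pb := lintegral_mono h1
    _ = ENNReal.ofReal (1 + θ) * ENNReal.ofReal (1 ^ 2 * w) + ENNReal.ofReal (θ ^ 2 + θ) * 1 := by
        rw [lintegral_add_left (by fun_prop), lintegral_const_mul _ (by fun_prop),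
          lintegral_const_mul _ (by fun_prop), ref_coord j 1 w hw h,
          Pb_lintegral_snd (fun g => ENNReal.ofReal (g ^ 2)) (by fun_prop), lintegral_sq_gaussian]
        simp
    _ = ENNReal.ofReal ((1 + θ) * w + (θ ^ 2 + θ)) := by
        rw [mul_one, ← ENNReal.ofReal_mul (by positivity),
          ← ENNReal.ofReal_add (by positivity) (by positivity)]
        congr 1; ring

theorem cost_map (F : (Fin 4 → ℝ) × ℝ → EuclideanSpace ℝ (Fin 4) × EuclideanSpace ℝ (Fin 4))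
    (hF : Measurable F) :
    cost (Pb.map F) = ∑ j, ∫⁻ p, ENNReal.ofReal (((F p).1 j - (F p).2 j) ^ 2) ∂Pb := by
  unfold cost
  rw [lintegral_map (by fun_prop) hF, ← lintegral_finsetSum _ (fun j _ => by fun_prop)]
  refine lintegral_congr fun p => ?_
  rw [EuclideanSpace.real_norm_sq_eq, ENNReal.ofReal_sum_of_nonneg (fun i _ => sq_nonneg _)]
  rfl

theorem vr_val : (vr 1 0 : ℝ) = 1 ∧ (vr 1 1 : ℝ) = 1 ∧ (vr 1 2 : ℝ) = 1 / 4 ∧
    (vr 1 3 : ℝ) = 1 / 4 := by
  refine ⟨?_, ?_, ?_, ?_⟩ <;> simp [vr]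

theorem ref1_cost (B α θ : ℝ) (hθ : 0 < θ) : cost (ref1 B α θ) ≤
    ENNReal.ofReal ((B - α) ^ 2 + (1 - α) ^ 2 + (1 - 2 * α) ^ 2 * (1 / 4) +
      ((1 + θ) * (1 / 4) + (θ ^ 2 + θ))) := by
  obtain ⟨w0, w1, w2, w3⟩ := vr_val
  unfold ref1
  rw [cost_map _ (m_r1 B α θ), Fin.sum_univ_four, ENNReal.ofReal_add (by positivity) (by positivity),
    ENNReal.ofReal_add (by positivity) (by positivity), ENNReal.ofReal_add (by positivity) (by positivity)]
  refine add_le_add (add_le_add (add_le_add ?_ ?_) ?_) ?_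
  · have h := ref_coord 0 (B - α) 1 zero_le_one w0
    rw [mul_one] at h
    rw [← h]
    refine lintegral_mono fun p => ENNReal.ofReal_le_ofReal (le_of_eq ?_)
    simp [xi, toE, scl, cx, repl, c1]; ring
  · have h := ref_coord 1 (1 - α) 1 zero_le_one w1
    rw [mul_one] at h
    rw [← h]
    refine lintegral_mono fun p => ENNReal.ofReal_le_ofReal (le_of_eq ?_)
    simp [xi, toE, scl, cx, repl, c1]; ring
  · have h := ref_coord 2 (1 - 2 * α) (1 / 4) (by norm_num) w2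
    rw [← h]
    refine lintegral_mono fun p => ENNReal.ofReal_le_ofReal (le_of_eq ?_)
    simp [xi, toE, scl, cx, repl, c1]; ring
  · refine le_trans ?_ (ref_mixed 3 θ (1 / 4) hθ (by norm_num) w3)
    refine lintegral_mono fun p => ENNReal.ofReal_le_ofReal (le_of_eq ?_)
    simp [xi, toE, scl, cx, repl, c1]

theorem ref2_cost (B α θ : ℝ) (hθ : 0 < θ) : cost (ref2 B α θ) ≤
    ENNReal.ofReal ((B - α) ^ 2 + (1 - α) ^ 2 + ((1 + θ) * (1 / 4) + (θ ^ 2 + θ)) +
      (1 - 2 * α) ^ 2 * (1 / 4)) := by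
  obtain ⟨w0, w1, w2, w3⟩ := vr_val
  unfold ref2
  rw [cost_map _ (m_r2 B α θ), Fin.sum_univ_four, ENNReal.ofReal_add (by positivity) (by positivity),
    ENNReal.ofReal_add (by positivity) (by positivity), ENNReal.ofReal_add (by positivity) (by positivity)]
  refine add_le_add (add_le_add (add_le_add ?_ ?_) ?_) ?_
  · have h := ref_coord 0 (B - α) 1 zero_le_one w0
    rw [mul_one] at h
    rw [← h]
    refine lintegral_mono fun p => ENNReal.ofReal_le_ofReal (le_of_eq ?_)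
    simp [xi, toE, scl, cx, repl, c2]; ring
  · have h := ref_coord 1 (1 - α) 1 zero_le_one w1
    rw [mul_one] at h
    rw [← h]
    refine lintegral_mono fun p => ENNReal.ofReal_le_ofReal (le_of_eq ?_)
    simp [xi, toE, scl, cx, repl, c2]; ring
  · refine le_trans ?_ (ref_mixed 2 θ (1 / 4) hθ (by norm_num) w2)
    refine lintegral_mono fun p => ENNReal.ofReal_le_ofReal (le_of_eq ?_)
    simp [xi, toE, scl, cx, repl, c2]
  · have h := ref_coord 3 (1 - 2 * α) (1 / 4) (by norm_num) w3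
    rw [← h]
    refine lintegral_mono fun p => ENNReal.ofReal_le_ofReal (le_of_eq ?_)
    simp [xi, toE, scl, cx, repl, c2]; ring

theorem ref3_cost (B δ : ℝ) : cost (ref3 B δ) ≤
    ENNReal.ofReal ((B - 2 * δ) ^ 2 + (1 - δ) ^ 2 + (1 - δ) ^ 2 * (1 / 4) +
      (1 - δ) ^ 2 * (1 / 4)) := by
  obtain ⟨w0, w1, w2, w3⟩ := vr_val
  unfold ref3
  rw [cost_map _ (m_r3 B δ), Fin.sum_univ_four, ENNReal.ofReal_add (by positivity) (by positivity),
    ENNReal.ofReal_add (by positivity) (by positivity), ENNReal.ofReal_add (by positivity) (by positivity)]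
  refine add_le_add (add_le_add (add_le_add ?_ ?_) ?_) ?_
  · have h := ref_coord 0 (B - 2 * δ) 1 zero_le_one w0
    rw [mul_one] at h
    rw [← h]
    refine lintegral_mono fun p => ENNReal.ofReal_le_ofReal (le_of_eq ?_)
    simp [xi, toE, scl, cx, c3]; ring
  · have h := ref_coord 1 (1 - δ) 1 zero_le_one w1
    rw [mul_one] at h
    rw [← h]
    refine lintegral_mono fun p => ENNReal.ofReal_le_ofReal (le_of_eq ?_)
    simp [xi, toE, scl, cx, c3]; ring
  · have h := ref_coord 2 (1 - δ) (1 / 4) (by norm_num) w2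
    rw [← h]
    refine lintegral_mono fun p => ENNReal.ofReal_le_ofReal (le_of_eq ?_)
    simp [xi, toE, scl, cx, c3]; ring
  · have h := ref_coord 3 (1 - δ) (1 / 4) (by norm_num) w3
    rw [← h]
    refine lintegral_mono fun p => ENNReal.ofReal_le_ofReal (le_of_eq ?_)
    simp [xi, toE, scl, cx, c3]; ring

end Pool.Agent.H770Bary
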