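import Pool.Agent.H770Bary.Base

set_option autoImplicit false

/-! Strong log-concavity of product Gaussians with a density. -/

namespace Pool.Agent.H770Bary

open MeasureTheory ProbabilityTheory Filter Topology Set
open scoped ENNReal NNReal

/-- The map `(Fin 4 → ℝ) → ℝ⁴`. -/
abbrev toE (z : Fin 4 → ℝ) : EuclideanSpace ℝ (Fin 4) := WithLp.toLp 2 z

theorem mp_toE : MeasurePreserving toE volume volume := PiLp.volume_preserving_toLp (Fin 4)

theorem measurable_toE : Measurable toE := mp_toE.measurable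

/-- Product Gaussian with variances `v` times the density `r`, on `ℝ⁴`. -/
noncomputable def mk4 (v : Fin 4 → ℝ≥0) (r : (Fin 4 → ℝ) → ℝ) : Measure (EuclideanSpace ℝ (Fin 4)) :=
  ((gp v).withDensity (fun z => ENNReal.ofReal (r z))).map toE

theorem slc_mk4 (v : Fin 4 → ℝ≥0) (hv : ∀ i, 0 < v i) (κ : ℝ) (r : (Fin 4 → ℝ) → ℝ)
    (hr : ∀ z, 0 < r z) (hrc : Continuous r) (hprob : IsProbabilityMeasure (mk4 v r))
    (hconv : ∀ x y : Fin 4 → ℝ, ∀ a b : ℝ, 0 ≤ a → 0 ≤ b → a + b = 1 →
      (∑ i, (1 / (2 * (v i : ℝ)) - κ / 2) * (a * x i + b * y i) ^ 2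
        - Real.log (r (fun i => a * x i + b * y i))) ≤
      a * (∑ i, (1 / (2 * (v i : ℝ)) - κ / 2) * (x i) ^ 2 - Real.log (r x)) +
      b * (∑ i, (1 / (2 * (v i : ℝ)) - κ / 2) * (y i) ^ 2 - Real.log (r y))) :
    StronglyLogConcave κ (mk4 v r) := by
  let c : ℝ := ∑ i, Real.log (√(2 * Real.pi * (v i : ℝ)))
  let V : EuclideanSpace ℝ (Fin 4) → ℝ := fun z =>
    (∑ i, (z i) ^ 2 / (2 * (v i : ℝ))) + c - Real.log (r (WithLp.ofLp z))
  have hVc : Continuous V := by
    have h1 : Continuous fun z : EuclideanSpace ℝ (Fin 4) => (WithLp.ofLp z) :=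
      PiLp.continuous_ofLp 2 _
    have h2 : Continuous fun z : EuclideanSpace ℝ (Fin 4) => Real.log (r (WithLp.ofLp z)) :=
      (hrc.comp h1).log (fun z => (hr _).ne')
    have h3 : Continuous fun z : EuclideanSpace ℝ (Fin 4) => ∑ i, (z i) ^ 2 / (2 * (v i : ℝ)) := by
      fun_prop
    exact (h3.add continuous_const).sub h2
  have hexp : ∀ z : EuclideanSpace ℝ (Fin 4), EReal.exp (-((V z : ℝ) : EReal)) =
      (∏ i, gaussianPDF 0 (v i) ((WithLp.ofLp z) i)) * ENNReal.ofReal (r (WithLp.ofLp z)) := by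
    intro z
    rw [← EReal.coe_neg, EReal.exp_coe]
    simp only [gaussianPDF]
    rw [← ENNReal.ofReal_prod_of_nonneg (fun i _ => gaussianPDFReal_nonneg 0 (v i) _),
      ← ENNReal.ofReal_mul (Finset.prod_nonneg fun i _ => gaussianPDFReal_nonneg 0 (v i) _)]
    congr 1
    have h1 : -V z = (∑ i, (-(Real.log (√(2 * Real.pi * (v i : ℝ)))) + -((z i) ^ 2 / (2 * (v i : ℝ))))) +
        Real.log (r (WithLp.ofLp z)) := by
      simp only [V, c, Finset.sum_add_distrib, Finset.sum_neg_distrib]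
      ring
    rw [h1, Real.exp_add, Real.exp_log (hr _), Real.exp_sum]
    congr 1
    refine Finset.prod_congr rfl fun i _ => ?_
    rw [Real.exp_add, Real.exp_neg, Real.exp_log]
    · simp only [gaussianPDFReal, sub_zero, neg_div]
    · have : (0 : ℝ) < v i := hv i
      positivity
  have hmeas : Measurable fun z : EuclideanSpace ℝ (Fin 4) => EReal.exp (-((V z : ℝ) : EReal)) := by
    have : (fun z : EuclideanSpace ℝ (Fin 4) => EReal.exp (-((V z : ℝ) : EReal))) =
        fun z => ENNReal.ofReal (Real.exp (-V z)) := by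
      funext z; rw [← EReal.coe_neg, EReal.exp_coe]
    rw [this]
    exact (Real.continuous_exp.comp hVc.neg).measurable.ennreal_ofReal
  have hmain : mk4 v r = volume.withDensity (fun z => EReal.exp (-((V z : ℝ) : EReal))) := by
    have hpdf : Measurable fun z : Fin 4 → ℝ => ∏ i, gaussianPDF 0 (v i) (z i) := by
      apply Finset.measurable_prod
      intro i _
      exact (measurable_gaussianPDF 0 (v i)).comp (measurable_pi_apply i)
    have hrm : Measurable fun z : Fin 4 → ℝ => ENNReal.ofReal (r z) := hrc.measurable.ennreal_ofReal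
    unfold mk4
    rw [gp_eq_withDensity v (fun i => (hv i).ne'), ← withDensity_mul _ hpdf hrm]
    ext s hs
    rw [Measure.map_apply measurable_toE hs, withDensity_apply _ (measurable_toE hs),
      withDensity_apply _ hs, ← mp_toE.setLIntegral_comp_preimage hs hmeas]
    refine lintegral_congr fun z => ?_
    rw [hexp]
    rfl
  have hZ : ∫⁻ z, EReal.exp (-((V z : ℝ) : EReal)) = 1 := by
    have h := hprob.measure_univ
    rw [hmain, withDensity_apply _ MeasurableSet.univ, setLIntegral_univ] at h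
    exact h
  refine ⟨fun z => ((V z : ℝ) : EReal), fun x => EReal.coe_ne_bot _, ⟨0, EReal.coe_ne_top _⟩,
    (continuous_coe_real_ereal.comp hVc).lowerSemicontinuous, ?_, ?_, ?_, ?_⟩
  · intro x y a b ha hb hab
    have key : ∀ z : EuclideanSpace ℝ (Fin 4), V z - κ * ‖z‖ ^ 2 / 2 =
        (∑ i, (1 / (2 * (v i : ℝ)) - κ / 2) * (z i) ^ 2 - Real.log (r (WithLp.ofLp z))) + c := by
      intro z
      have h1 : ‖z‖ ^ 2 = ∑ i, (z i) ^ 2 := EuclideanSpace.real_norm_sq_eq z
      rw [h1]
      have h2 : ∑ i, (1 / (2 * (v i : ℝ)) - κ / 2) * (z i) ^ 2 =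
          (∑ i, (z i) ^ 2 / (2 * (v i : ℝ))) - κ * (∑ i, (z i) ^ 2) / 2 := by
        rw [Finset.mul_sum, Finset.sum_div, ← Finset.sum_sub_distrib]
        refine Finset.sum_congr rfl fun i _ => ?_
        ring
      rw [h2]
      simp only [V]
      ring
    have hc := hconv (WithLp.ofLp x) (WithLp.ofLp y) a b ha hb hab
    have hreal : V (a • x + b • y) - κ * ‖a • x + b • y‖ ^ 2 / 2 ≤
        a * (V x - κ * ‖x‖ ^ 2 / 2) + b * (V y - κ * ‖y‖ ^ 2 / 2) := by
      rw [key, key, key]
      have h3 : (WithLp.ofLp (a • x + b • y)) = fun i => a * (WithLp.ofLp x) i + b * (WithLp.ofLp y) i := by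
        funext i; simp
      have h4 : ∀ i, (a • x + b • y) i = a * x i + b * y i := by
        intro i; simp
      have h5 : a * c + b * c = c := by rw [← add_mul, hab, one_mul]
      simp only [h3, h4]
      nlinarith [hc]
    show ((V (a • x + b • y) : ℝ) : EReal) - ((κ * ‖a • x + b • y‖ ^ 2 / 2 : ℝ) : EReal) ≤
        (a : EReal) * (((V x : ℝ) : EReal) - ((κ * ‖x‖ ^ 2 / 2 : ℝ) : EReal)) +
        (b : EReal) * (((V y : ℝ) : EReal) - ((κ * ‖y‖ ^ 2 / 2 : ℝ) : EReal))
    exact_mod_cast hreal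
  · rw [hZ]; exact one_pos
  · rw [hZ]; exact ENNReal.one_lt_top
  · rw [hZ, inv_one, one_smul]; exact hmain

end Pool.Agent.H770Bary
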