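import Pool.Agent.H770Bary.Law

set_option autoImplicit false

/-! Splitting off a Gaussian factor in the direction of the coordinate `0`. -/

namespace Pool.Agent.H770Bary

open MeasureTheory ProbabilityTheory Filter Topology Set
open scoped ENNReal NNReal RealInnerProductSpace

/-- The common direction. -/
noncomputable def e0 : EuclideanSpace ℝ (Fin 4) := EuclideanSpace.single 0 1

theorem inner_e0 (y : EuclideanSpace ℝ (Fin 4)) : (⟪e0, y⟫ : ℝ) = y 0 := by
  unfold e0
  rw [EuclideanSpace.inner_single_left]; simp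

theorem norm_e0 : ‖e0‖ = 1 := by
  unfold e0; simp

theorem splitsOff_mk4 (v : Fin 4 → ℝ≥0) (κ : ℝ) (hv0 : v 0 = Real.toNNReal κ⁻¹)
    (r : (Fin 4 → ℝ) → ℝ) (hrm : Measurable r) (hr0 : ∀ z t, r (Function.update z 0 t) = r z)
    (hprob : IsProbabilityMeasure (mk4 v r)) : SplitsOff κ (mk4 v r) e0 := by
  let Q : Measure (Fin 4 → ℝ) := (gp v).withDensity (fun z => ENNReal.ofReal (r z))
  have hQdef : mk4 v r = Q.map toE := rfl
  have hQ1 : Q univ = 1 := by
    have := hprob.measure_univ
    rw [hQdef, Measure.map_apply measurable_toE MeasurableSet.univ] at this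
    exact this
  let γ : Measure ℝ := gaussianReal 0 (v 0)
  let P' : Measure (Fin 3 → ℝ) := Measure.pi fun i : Fin 3 => gaussianReal 0 (v i.succ)
  let e4 := MeasurableEquiv.piFinSuccAbove (fun _ : Fin 4 => ℝ) 0
  have hmp : MeasurePreserving e4 (gp v) (γ.prod P') :=
    measurePreserving_piFinSuccAbove (fun i => gaussianReal 0 (v i)) 0
  let cons0 : (Fin 3 → ℝ) → (Fin 4 → ℝ) := fun y => Fin.cons 0 y
  have hcons0 : Measurable cons0 := by
    apply measurable_pi_lambda
    intro i
    refine Fin.cases ?_ (fun j => ?_) i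
    · exact measurable_const
    · exact measurable_pi_apply j
  let ρ' : (Fin 3 → ℝ) → ℝ≥0∞ := fun y => ENNReal.ofReal (r (cons0 y))
  have hρ' : Measurable ρ' := (hrm.comp hcons0).ennreal_ofReal
  have he4 : ∀ z : Fin 4 → ℝ, e4 z = (z 0, fun i : Fin 3 => z i.succ) := fun z => rfl
  have hρ : ∀ z, ENNReal.ofReal (r z) = ρ' (e4 z).2 := by
    intro z
    simp only [ρ', he4, cons0]
    rw [← hr0 z 0]
    congr 2
    funext i
    refine Fin.cases ?_ (fun j => ?_) i
    · simp
    · simp [Function.update_of_ne (Fin.succ_ne_zero j)]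
  have h1 : Q.map e4 = γ.prod (P'.withDensity ρ') := by
    have h2 : Q = (gp v).withDensity (fun z => (fun p : ℝ × (Fin 3 → ℝ) => ρ' p.2) (e4 z)) := by
      simp only [Q]
      congr 1
      funext z
      exact hρ z
    rw [h2, map_withDensity_comp (gp v) e4 e4.measurable (fun p : ℝ × (Fin 3 → ℝ) => ρ' p.2)
      (hρ'.comp measurable_snd), hmp.map_eq, prod_withDensity_right hρ']
  have hQ' : IsProbabilityMeasure (P'.withDensity ρ') := by
    refine ⟨?_⟩
    have h2 : Q.map e4 univ = 1 := by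
      rw [Measure.map_apply e4.measurable MeasurableSet.univ]; simpa using hQ1
    rw [h1, ← univ_prod_univ, Measure.prod_prod] at h2
    simpa [γ] using h2
  let h : (Fin 3 → ℝ) → EuclideanSpace ℝ (Fin 4) := fun y => toE (cons0 y)
  have hh : Measurable h := measurable_toE.comp hcons0
  have hFm : Measurable fun y : EuclideanSpace ℝ (Fin 4) => ((⟪e0, y⟫ : ℝ), y - (⟪e0, y⟫ : ℝ) • e0) := by
    fun_prop
  have hmain : (mk4 v r).map (fun y => ((⟪e0, y⟫ : ℝ), y - (⟪e0, y⟫ : ℝ) • e0)) =
      γ.prod ((P'.withDensity ρ').map h) := by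
    rw [hQdef, Measure.map_map hFm measurable_toE]
    have h3 : (fun y : EuclideanSpace ℝ (Fin 4) => ((⟪e0, y⟫ : ℝ), y - (⟪e0, y⟫ : ℝ) • e0)) ∘ toE =
        (Prod.map id h) ∘ e4 := by
      funext z
      simp only [Function.comp, inner_e0, he4, Prod.map, id, h, cons0]
      refine Prod.ext ?_ ?_
      · simp [toE]
      · simp only
        ext i
        refine Fin.cases ?_ (fun j => ?_) i
        · simp [toE, e0]
        · simp [toE, e0]
    rw [h3, ← Measure.map_map (measurable_id.prodMap hh) e4.measurable, h1,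
      ← Measure.map_prod_map _ _ measurable_id hh, Measure.map_id]
  have hν : IsProbabilityMeasure ((P'.withDensity ρ').map h) :=
    Measure.isProbabilityMeasure_map hh.aemeasurable
  refine ⟨(P'.withDensity ρ').map h, hν, ?_⟩
  have hmean : ∫ y, (⟪e0, y⟫ : ℝ) ∂(mk4 v r) = 0 := by
    have h4 : ∫ p, p.1 ∂((mk4 v r).map (fun y => ((⟪e0, y⟫ : ℝ), y - (⟪e0, y⟫ : ℝ) • e0))) =
        ∫ y, (⟪e0, y⟫ : ℝ) ∂(mk4 v r) := by
      rw [integral_map hFm.aemeasurable (by fun_prop)]
    have h5 : ∫ p : ℝ × EuclideanSpace ℝ (Fin 4), p.1 ∂(γ.prod ((P'.withDensity ρ').map h)) =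
        ∫ t, t ∂γ := by
      have h6 := integral_fun_fst (μ := γ) (ν := (P'.withDensity ρ').map h) (fun t : ℝ => t)
      rw [h6]; simp
    rw [← h4, hmain, h5]
    exact integral_id_gaussianReal
  rw [hmean, hmain, ← hv0]

end Pool.Agent.H770Bary
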