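import Pool.Agent.H770Bary.Ref

set_option autoImplicit false

/-! The stability estimate. -/

namespace Pool.Agent.H770Bary

open MeasureTheory ProbabilityTheory Filter Topology Set
open scoped ENNReal NNReal RealInnerProductSpace

abbrev E4 := EuclideanSpace ℝ (Fin 4)

theorem memLp_fst (π : Measure (E4 × E4)) (m : Measure E4) (h : π.map Prod.fst = m)
    (hm : MemLp (fun y : E4 => y) 2 m) : MemLp (fun p : E4 × E4 => p.1) 2 π := by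
  rw [← h] at hm
  have := (memLp_map_measure_iff (by fun_prop) (by fun_prop)).1 hm
  exact this

theorem memLp_snd (π : Measure (E4 × E4)) (m : Measure E4) (h : π.map Prod.snd = m)
    (hm : MemLp (fun y : E4 => y) 2 m) : MemLp (fun p : E4 × E4 => p.2) 2 π := by
  rw [← h] at hm
  have := (memLp_map_measure_iff (by fun_prop) (by fun_prop)).1 hm
  exact this

theorem memLp_of_cost (π : Measure (E4 × E4)) (m μ : Measure E4) (h : π.map Prod.fst = m)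
    (h' : π.map Prod.snd = μ) (hc : cost π < ⊤) (hμ : ∫⁻ y, ENNReal.ofReal (‖y‖ ^ 2) ∂μ < ⊤) :
    MemLp (fun y : E4 => y) 2 m := by
  have h1 := moment_fst_le π
  have h2 : ∫⁻ p : E4 × E4, ENNReal.ofReal (‖p.2‖ ^ 2) ∂π = ∫⁻ y, ENNReal.ofReal (‖y‖ ^ 2) ∂μ := by
    rw [← h', lintegral_map (by fun_prop) measurable_snd]
  have h3 : ∫⁻ p : E4 × E4, ENNReal.ofReal (‖p.1‖ ^ 2) ∂π = ∫⁻ y, ENNReal.ofReal (‖y‖ ^ 2) ∂m := by
    rw [← h, lintegral_map (by fun_prop) measurable_fst]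
  rw [h2, h3] at h1
  rw [memLp_two_iff_integrable_sq_norm (by fun_prop)]
  refine ⟨by fun_prop, ?_⟩
  rw [hasFiniteIntegral_iff_ofReal (Eventually.of_forall fun y => by positivity)]
  refine lt_of_le_of_lt h1 (ENNReal.add_lt_top.2 ⟨?_, ?_⟩)
  · exact ENNReal.mul_lt_top (by norm_num) hc
  · exact ENNReal.mul_lt_top (by norm_num) hμ

theorem int_fst (π : Measure (E4 × E4)) (m : Measure E4) (h : π.map Prod.fst = m) (f : E4 → ℝ)
    (hf : Measurable f) : ∫ p, f p.1 ∂π = ∫ y, f y ∂m := by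
  rw [← h, integral_map (by fun_prop) hf.aestronglyMeasurable]

theorem int_snd (π : Measure (E4 × E4)) (m : Measure E4) (h : π.map Prod.snd = m) (f : E4 → ℝ)
    (hf : Measurable f) : ∫ p, f p.2 ∂π = ∫ y, f y ∂m := by
  rw [← h, integral_map (by fun_prop) hf.aestronglyMeasurable]

/-- Lower bound of one coordinate of the cost. -/
theorem coord_lower (π : Measure (E4 × E4)) (m μ : Measure E4) (h : π.map Prod.fst = m)
    (h' : π.map Prod.snd = μ) (hm : MemLp (fun y : E4 => y) 2 m) (hμ : MemLp (fun y : E4 => y) 2 μ)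
    (j : Fin 4) (V : ℝ) (hV : ∫ y, (y j) ^ 2 ∂μ = V) (c k : ℝ) (hc : 0 ≤ c) (hck : c * k = 1) :
    (1 - c) * ∫ y, (y j) ^ 2 ∂m + (1 - k) * V ≤ ∫ p, (p.1 j - p.2 j) ^ 2 ∂π := by
  have := expand_sq_le π (fun p => p.1 j) (fun p => p.2 j) (memLp_coord π _ (memLp_fst π m h hm) j)
    (memLp_coord π _ (memLp_snd π μ h' hμ) j) c k hc hck
  rw [int_fst π m h (fun y => (y j) ^ 2) (by fun_prop), int_snd π μ h' (fun y => (y j) ^ 2) (by fun_prop),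
    hV] at this
  exact this

theorem coord_exact (π : Measure (E4 × E4)) (m μ : Measure E4) (h : π.map Prod.fst = m)
    (h' : π.map Prod.snd = μ) (hm : MemLp (fun y : E4 => y) 2 m) (hμ : MemLp (fun y : E4 => y) 2 μ)
    (j : Fin 4) (V : ℝ) (hV : ∫ y, (y j) ^ 2 ∂μ = V) (c k : ℝ) (hck : c * k = 1) :
    ∫ p, (p.1 j - p.2 j) ^ 2 ∂π = (1 - c) * ∫ y, (y j) ^ 2 ∂m + (1 - k) * V +
      c * ∫ p, (p.1 j - k * p.2 j) ^ 2 ∂π := by
  have := expand_sq π (fun p => p.1 j) (fun p => p.2 j) (memLp_coord π _ (memLp_fst π m h hm) j)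
    (memLp_coord π _ (memLp_snd π μ h' hμ) j) c k hck
  rw [int_fst π m h (fun y => (y j) ^ 2) (by fun_prop), int_snd π μ h' (fun y => (y j) ^ 2) (by fun_prop),
    hV] at this
  exact this

theorem sq_moment_le (π : Measure (E4 × E4)) (m μ : Measure E4) (h : π.map Prod.fst = m)
    (h' : π.map Prod.snd = μ) (hm : MemLp (fun y : E4 => y) 2 m) (hμ : MemLp (fun y : E4 => y) 2 μ)
    (j : Fin 4) (V : ℝ) (hV : ∫ y, (y j) ^ 2 ∂μ = V) (k : ℝ) :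
    ∫ y, (y j) ^ 2 ∂m ≤ 2 * ∫ p, (p.1 j - k * p.2 j) ^ 2 ∂π + 2 * (k ^ 2 * V) := by
  have h1 := memLp_coord π _ (memLp_fst π m h hm) j
  have h2 := memLp_coord π _ (memLp_snd π μ h' hμ) j
  rw [← int_fst π m h (fun y => (y j) ^ 2) (by fun_prop), ← hV,
    ← int_snd π μ h' (fun y => (y j) ^ 2) (by fun_prop), ← integral_const_mul, ← integral_const_mul,
    ← integral_const_mul]
  have i1 : Integrable (fun p : E4 × E4 => 2 * (p.1 j - k * p.2 j) ^ 2) π :=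
    ((h1.sub (h2.const_mul k)).integrable_sq).const_mul 2
  have i2 : Integrable (fun p : E4 × E4 => 2 * (k ^ 2 * (p.2 j) ^ 2)) π :=
    (h2.integrable_sq.const_mul _).const_mul _
  rw [← integral_add i1 i2]
  refine integral_mono h1.integrable_sq (i1.add i2) fun p => ?_
  simp only
  nlinarith [sq_nonneg (p.1 j - 2 * (k * p.2 j))]

/-- The linear algebra of the stability estimate. -/
theorem algebra_sum (δ θ α B M0 M1 M2 M3 R1 R2 R3 E D I10 I11 I12 I13 I20 I21 I22 I23 I30 I31 I32 I33 : ℝ)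
    (hα : α = (3 - δ) / 2) (hB : B = 1 + δ / 3)
    (z : 2 * ((1 - E) * M0) + (1 - D) * M0 = 0)
    (q10 : (1 - E) * M0 + (α ^ 2 - B * α) ≤ I10)
    (q11 : (1 - α) * M1 + (α ^ 2 - α) ≤ I11)
    (q12 : (1 - 2 * α) * M2 + (α ^ 2 - α / 2) ≤ I12)
    (q13 : (1 - θ) * M3 + (θ ^ 2 - θ) ≤ I13)
    (q20 : (1 - E) * M0 + (α ^ 2 - B * α) ≤ I20)
    (q21 : (1 - α) * M1 + (α ^ 2 - α) ≤ I21)
    (q22 : (1 - θ) * M2 + (θ ^ 2 - θ) ≤ I22)
    (q23 : (1 - 2 * α) * M3 + (α ^ 2 - α / 2) ≤ I23)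
    (q30 : (1 - D) * M0 + (4 * δ ^ 2 - 2 * δ * B) ≤ I30)
    (q31 : I31 = (1 - δ) * M1 + (δ ^ 2 - δ) + δ * R1)
    (q32 : I32 = (1 - δ) * M2 + (δ ^ 2 - δ) / 4 + δ * R2)
    (q33 : I33 = (1 - δ) * M3 + (δ ^ 2 - δ) / 4 + δ * R3)
    (hle : I10 + I11 + I12 + I13 + (I20 + I21 + I22 + I23) + (I30 + I31 + I32 + I33) ≤
      (B - α) ^ 2 + (1 - α) ^ 2 + (1 - 2 * α) ^ 2 * (1 / 4) + ((1 + θ) * (1 / 4) + (θ ^ 2 + θ)) +
      ((B - α) ^ 2 + (1 - α) ^ 2 + ((1 + θ) * (1 / 4) + (θ ^ 2 + θ)) + (1 - 2 * α) ^ 2 * (1 / 4)) +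
      ((B - 2 * δ) ^ 2 + (1 - δ) ^ 2 + (1 - δ) ^ 2 * (1 / 4) + (1 - δ) ^ 2 * (1 / 4))) :
    δ * (R1 + R2 + R3) ≤ θ * (9 / 2 + M2 + M3) := by
  subst hα hB
  generalize (1 - E) * M0 = Z1 at *
  generalize (1 - D) * M0 = Z2 at *
  subst q31 q32 q33
  have h := add_le_add (add_le_add (add_le_add (add_le_add q10 q11) (add_le_add q12 q13)) (add_le_add (add_le_add q20 q21) (add_le_add q22 q23))) q30
  linarith

theorem stability (δ θ α B : ℝ) (hδ : 0 < δ) (hδ1 : δ ≤ 1) (hθ : 0 < θ) (hθδ : θ ≤ δ / 4)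
    (hα : α = (3 - δ) / 2) (hB : B = 1 + δ / 3) (m : Measure E4) [IsProbabilityMeasure m]
    (π1 π2 π3 : Measure (E4 × E4))
    (h1 : π1.map Prod.fst = m ∧ π1.map Prod.snd = mu1 α θ)
    (h2 : π2.map Prod.fst = m ∧ π2.map Prod.snd = mu2 α θ)
    (h3 : π3.map Prod.fst = m ∧ π3.map Prod.snd = mu3 δ)
    (hmin : cost π1 + cost π2 + cost π3 ≤
      cost (ref1 B α θ) + cost (ref2 B α θ) + cost (ref3 B δ)) :
    MemLp (fun y : E4 => y) 2 m ∧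
      (∫ p, (p.1 1 - δ⁻¹ * p.2 1) ^ 2 ∂π3) + (∫ p, (p.1 2 - δ⁻¹ * p.2 2) ^ 2 ∂π3) +
      (∫ p, (p.1 3 - δ⁻¹ * p.2 3) ^ 2 ∂π3) ≤ 11 * θ / δ := by
  have hα0 : 0 < α := by rw [hα]; linarith
  have hB0 : 0 < B := by rw [hB]; positivity
  obtain ⟨l1, f1⟩ := memLp_of_coord _ _ (mu1_lintegral_sq α θ)
  obtain ⟨l2, f2⟩ := memLp_of_coord _ _ (mu2_lintegral_sq α θ)
  obtain ⟨l3, f3⟩ := memLp_of_coord _ _ (mu3_lintegral_sq δ)
  have u1 := ref1_cost B α θ hθ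
  have u2 := ref2_cost B α θ hθ
  have u3 := ref3_cost B δ
  have hle := hmin.trans (add_le_add (add_le_add u1 u2) u3)
  have hfin3 : cost π3 < ⊤ := by
    refine lt_of_le_of_lt (le_add_self.trans hle) ?_
    exact ENNReal.add_lt_top.2 ⟨ENNReal.add_lt_top.2 ⟨ENNReal.ofReal_lt_top, ENNReal.ofReal_lt_top⟩,
      ENNReal.ofReal_lt_top⟩
  have lm : MemLp (fun y : E4 => y) 2 m := memLp_of_cost π3 m _ h3.1 h3.2 hfin3 f3
  refine ⟨lm, ?_⟩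
  have e1 := cost_eq π1 (memLp_fst π1 m h1.1 lm) (memLp_snd π1 _ h1.2 l1)
  have e2 := cost_eq π2 (memLp_fst π2 m h2.1 lm) (memLp_snd π2 _ h2.2 l2)
  have e3 := cost_eq π3 (memLp_fst π3 m h3.1 lm) (memLp_snd π3 _ h3.2 l3)
  have p0 : ∀ π : Measure (E4 × E4), 0 ≤ ∑ j, ∫ p, (p.1 j - p.2 j) ^ 2 ∂π := fun π =>
    Finset.sum_nonneg fun j _ => integral_nonneg fun p => sq_nonneg _
  have hθ1 : θ ≤ 1 := by linarith
  rw [e1, e2, e3, ← ENNReal.ofReal_add (p0 _) (p0 _),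
    ← ENNReal.ofReal_add (add_nonneg (p0 _) (p0 _)) (p0 _),
    ← ENNReal.ofReal_add (by positivity) (by positivity),
    ← ENNReal.ofReal_add (by positivity) (by positivity),
    ENNReal.ofReal_le_ofReal_iff (by positivity)] at hle
  simp only [Fin.sum_univ_four] at hle
  -- second moments
  obtain ⟨a0, a1, a2, a3⟩ := v1_val α θ
  obtain ⟨b0, b1, b2, b3⟩ := v2_val α θ
  obtain ⟨c0, c1', c2', c3'⟩ := v3_val δ
  have m1 := integral_sq_of_coord _ _ (mu1_lintegral_sq α θ)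
  have m2 := integral_sq_of_coord _ _ (mu2_lintegral_sq α θ)
  have m3 := integral_sq_of_coord _ _ (mu3_lintegral_sq δ)
  -- the constants
  have k0 : (α / B) * (B / α) = 1 := by field_simp
  have kd : (2 * δ / B) * (B / (2 * δ)) = 1 := by field_simp
  have kα : α * α⁻¹ = 1 := mul_inv_cancel₀ hα0.ne'
  have k2α : (2 * α) * (2 * α)⁻¹ = 1 := mul_inv_cancel₀ (by positivity)
  have kθ : θ * θ⁻¹ = 1 := mul_inv_cancel₀ hθ.ne'
  have kδ : δ * δ⁻¹ = 1 := mul_inv_cancel₀ hδ.ne'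
  have q10 := coord_lower π1 m _ h1.1 h1.2 lm l1 0 _ (by rw [m1 0, a0]) _ _ (by positivity) k0
  have q11 := coord_lower π1 m _ h1.1 h1.2 lm l1 1 _ (by rw [m1 1, a1]) _ _ (by positivity) kα
  have q12 := coord_lower π1 m _ h1.1 h1.2 lm l1 2 _ (by rw [m1 2, a2]) _ _ (by positivity) k2α
  have q13 := coord_lower π1 m _ h1.1 h1.2 lm l1 3 _ (by rw [m1 3, a3]) _ _ (by positivity) kθ
  have q20 := coord_lower π2 m _ h2.1 h2.2 lm l2 0 _ (by rw [m2 0, b0]) _ _ (by positivity) k0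
  have q21 := coord_lower π2 m _ h2.1 h2.2 lm l2 1 _ (by rw [m2 1, b1]) _ _ (by positivity) kα
  have q22 := coord_lower π2 m _ h2.1 h2.2 lm l2 2 _ (by rw [m2 2, b2]) _ _ (by positivity) kθ
  have q23 := coord_lower π2 m _ h2.1 h2.2 lm l2 3 _ (by rw [m2 3, b3]) _ _ (by positivity) k2α
  have q30 := coord_lower π3 m _ h3.1 h3.2 lm l3 0 _ (by rw [m3 0, c0]) _ _ (by positivity) kd
  have q31 := coord_exact π3 m _ h3.1 h3.2 lm l3 1 _ (by rw [m3 1, c1']) _ _ kδ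
  have q32 := coord_exact π3 m _ h3.1 h3.2 lm l3 2 _ (by rw [m3 2, c2']) _ _ kδ
  have q33 := coord_exact π3 m _ h3.1 h3.2 lm l3 3 _ (by rw [m3 3, c3']) _ _ kδ
  have s2 := sq_moment_le π3 m _ h3.1 h3.2 lm l3 2 _ (by rw [m3 2, c2']) δ⁻¹
  have s3 := sq_moment_le π3 m _ h3.1 h3.2 lm l3 3 _ (by rw [m3 3, c3']) δ⁻¹
  have r1 : 0 ≤ ∫ p : E4 × E4, (p.1 1 - δ⁻¹ * p.2 1) ^ 2 ∂π3 := integral_nonneg fun p => sq_nonneg _
  have r2 : 0 ≤ ∫ p : E4 × E4, (p.1 2 - δ⁻¹ * p.2 2) ^ 2 ∂π3 := integral_nonneg fun p => sq_nonneg _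
  have r3 : 0 ≤ ∫ p : E4 × E4, (p.1 3 - δ⁻¹ * p.2 3) ^ 2 ∂π3 := integral_nonneg fun p => sq_nonneg _
  generalize (∫ p : E4 × E4, (p.1 1 - δ⁻¹ * p.2 1) ^ 2 ∂π3) = R1 at *
  generalize (∫ p : E4 × E4, (p.1 2 - δ⁻¹ * p.2 2) ^ 2 ∂π3) = R2 at *
  generalize (∫ p : E4 × E4, (p.1 3 - δ⁻¹ * p.2 3) ^ 2 ∂π3) = R3 at *
  generalize (∫ y : E4, (y 0) ^ 2 ∂m) = M0 at *
  generalize (∫ y : E4, (y 1) ^ 2 ∂m) = M1 at *
  generalize (∫ y : E4, (y 2) ^ 2 ∂m) = M2 at *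
  generalize (∫ y : E4, (y 3) ^ 2 ∂m) = M3 at *
  have g0 : (1 - B / α) * α ^ 2 = α ^ 2 - B * α := by field_simp
  have g1 : (1 - α⁻¹) * α ^ 2 = α ^ 2 - α := by field_simp
  have g2 : (1 - (2 * α)⁻¹) * α ^ 2 = α ^ 2 - α / 2 := by field_simp
  have g3 : (1 - θ⁻¹) * θ ^ 2 = θ ^ 2 - θ := by field_simp
  have g4 : (1 - B / (2 * δ)) * (4 * δ ^ 2) = 4 * δ ^ 2 - 2 * δ * B := by field_simp; ring
  have g5 : (1 - δ⁻¹) * δ ^ 2 = δ ^ 2 - δ := by field_simp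
  have g6 : (1 - δ⁻¹) * (δ ^ 2 / 4) = (δ ^ 2 - δ) / 4 := by field_simp
  have g7 : 2 * (δ⁻¹ ^ 2 * (δ ^ 2 / 4)) = 1 / 2 := by field_simp; norm_num
  rw [g0] at q10 q20
  rw [g1] at q11 q21
  rw [g2] at q12 q23
  rw [g3] at q13 q22
  rw [g4] at q30
  rw [g5] at q31
  rw [g6] at q32 q33
  rw [g7] at s2 s3
  have z0 : 2 * (α / B) + 2 * δ / B = 3 := by
    rw [hα]; field_simp; rw [hB]; ring
  have z0M : 2 * ((1 - α / B) * M0) + (1 - 2 * δ / B) * M0 = 0 := by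
    have : 2 * ((1 - α / B) * M0) + (1 - 2 * δ / B) * M0 = (3 - (2 * (α / B) + 2 * δ / B)) * M0 := by
      ring
    rw [this, z0]; ring
  -- the sum
  have hsum : δ * (R1 + R2 + R3) ≤ θ * (9 / 2 + M2 + M3) := by
    exact algebra_sum δ θ α B M0 M1 M2 M3 R1 R2 R3 _ _ _ _ _ _ _ _ _ _ _ _ _ _ hα hB z0M q10 q11 q12 q13
      q20 q21 q22 q23 q30 q31 q32 q33 hle
  have hM : M2 + M3 ≤ 2 * (R1 + R2 + R3) + 1 := by linarith
  have hR : δ * (R1 + R2 + R3) ≤ θ * (11 / 2 + 2 * (R1 + R2 + R3)) := by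
    refine hsum.trans ?_
    apply mul_le_mul_of_nonneg_left _ hθ.le
    linarith
  have hR2 : (δ / 2) * (R1 + R2 + R3) ≤ θ * (11 / 2) := by
    have : 0 ≤ R1 + R2 + R3 := by positivity
    nlinarith [mul_le_mul_of_nonneg_right hθδ this]
  rw [le_div_iff₀ hδ]
  linarith

end Pool.Agent.H770Bary
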