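import Pool.Agent.H770Bary.Split

set_option autoImplicit false

/-! The three measures of the counterexample: strong log-concavity and the Gaussian factor. -/

namespace Pool.Agent.H770Bary

open MeasureTheory ProbabilityTheory Filter Topology Set
open scoped ENNReal NNReal RealInnerProductSpace

noncomputable def c1 (α θ : ℝ) : Fin 4 → ℝ := ![α, α, 2 * α, θ]
noncomputable def c2 (α θ : ℝ) : Fin 4 → ℝ := ![α, α, θ, 2 * α]
noncomputable def c3 (δ : ℝ) : Fin 4 → ℝ := ![2 * δ, δ, δ, δ]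

noncomputable def mu1 (α θ : ℝ) : Measure (EuclideanSpace ℝ (Fin 4)) :=
  (Pb.map (repl (c1 α θ) 3)).map toE
noncomputable def mu2 (α θ : ℝ) : Measure (EuclideanSpace ℝ (Fin 4)) :=
  (Pb.map (repl (c2 α θ) 2)).map toE
noncomputable def mu3 (δ : ℝ) : Measure (EuclideanSpace ℝ (Fin 4)) :=
  (rb.map (scl (c3 δ))).map toE

noncomputable def v1 (α θ : ℝ) : Fin 4 → ℝ≥0 :=
  fun i => Real.toNNReal ((c1 α θ i) ^ 2) * (if i = 3 then 1 else vr 1 i)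
noncomputable def v2 (α θ : ℝ) : Fin 4 → ℝ≥0 :=
  fun i => Real.toNNReal ((c2 α θ i) ^ 2) * (if i = 2 then 1 else vr 1 i)
noncomputable def v3 (δ : ℝ) : Fin 4 → ℝ≥0 :=
  fun i => Real.toNNReal ((c3 δ i) ^ 2) * vr 1 i

theorem mk4_one (v : Fin 4 → ℝ≥0) : mk4 v (fun _ => 1) = (gp v).map toE := by
  unfold mk4
  simp

theorem mu1_eq (α θ : ℝ) : mu1 α θ = mk4 (v1 α θ) (fun _ => 1) := by
  rw [mk4_one, mu1, Pb_repl3]; rfl

theorem mu2_eq (α θ : ℝ) : mu2 α θ = mk4 (v2 α θ) (fun _ => 1) := by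
  rw [mk4_one, mu2, Pb_repl2]; rfl

noncomputable def r3 (δ : ℝ) (z : Fin 4 → ℝ) : ℝ := dens (fun i => z i / δ)

theorem continuous_r3 (δ : ℝ) : Continuous (r3 δ) := by
  unfold r3
  exact continuous_dens.comp (by fun_prop)

theorem mu3_eq (δ : ℝ) (hδ : 0 < δ) : mu3 δ = mk4 (v3 δ) (r3 δ) := by
  unfold mu3 mk4
  congr 1
  have h1 : rb = (gp (vr 1)).withDensity (fun z => (fun y => ENNReal.ofReal (r3 δ y)) (scl (c3 δ) z)) := by
    unfold rb rho0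
    congr 1
    funext z
    simp only [densE, r3, dens, scl, c3]
    congr 3
    simp only [Matrix.cons_val]
    congr 1 <;> field_simp
  rw [h1, map_withDensity_comp (gp (vr 1)) (scl (c3 δ)) (measurable_scl _)
    (fun y => ENNReal.ofReal (r3 δ y)) (continuous_r3 δ).measurable.ennreal_ofReal, gp_map_scl]
  rfl

theorem prob_mu1 (α θ : ℝ) : IsProbabilityMeasure (mu1 α θ) := by
  unfold mu1
  have h1 : IsProbabilityMeasure (Pb.map (repl (c1 α θ) 3)) :=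
    Measure.isProbabilityMeasure_map (measurable_repl _ _).aemeasurable
  exact Measure.isProbabilityMeasure_map measurable_toE.aemeasurable

theorem prob_mu2 (α θ : ℝ) : IsProbabilityMeasure (mu2 α θ) := by
  unfold mu2
  have h1 : IsProbabilityMeasure (Pb.map (repl (c2 α θ) 2)) :=
    Measure.isProbabilityMeasure_map (measurable_repl _ _).aemeasurable
  exact Measure.isProbabilityMeasure_map measurable_toE.aemeasurable

theorem prob_mu3 (δ : ℝ) : IsProbabilityMeasure (mu3 δ) := by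
  unfold mu3
  have h1 : IsProbabilityMeasure (rb.map (scl (c3 δ))) :=
    Measure.isProbabilityMeasure_map (measurable_scl _).aemeasurable
  exact Measure.isProbabilityMeasure_map measurable_toE.aemeasurable

theorem v1_val (α θ : ℝ) : ((v1 α θ 0 : ℝ≥0) : ℝ) = α ^ 2 ∧ ((v1 α θ 1 : ℝ≥0) : ℝ) = α ^ 2 ∧
    ((v1 α θ 2 : ℝ≥0) : ℝ) = α ^ 2 ∧ ((v1 α θ 3 : ℝ≥0) : ℝ) = θ ^ 2 := by
  refine ⟨?_, ?_, ?_, ?_⟩ <;>
    simp [v1, c1, vr, Real.coe_toNNReal _ (sq_nonneg _)] <;> ring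

theorem v2_val (α θ : ℝ) : ((v2 α θ 0 : ℝ≥0) : ℝ) = α ^ 2 ∧ ((v2 α θ 1 : ℝ≥0) : ℝ) = α ^ 2 ∧
    ((v2 α θ 2 : ℝ≥0) : ℝ) = θ ^ 2 ∧ ((v2 α θ 3 : ℝ≥0) : ℝ) = α ^ 2 := by
  refine ⟨?_, ?_, ?_, ?_⟩ <;>
    simp [v2, c2, vr, Real.coe_toNNReal _ (sq_nonneg _)] <;> ring

theorem v3_val (δ : ℝ) : ((v3 δ 0 : ℝ≥0) : ℝ) = 4 * δ ^ 2 ∧ ((v3 δ 1 : ℝ≥0) : ℝ) = δ ^ 2 ∧
    ((v3 δ 2 : ℝ≥0) : ℝ) = δ ^ 2 / 4 ∧ ((v3 δ 3 : ℝ≥0) : ℝ) = δ ^ 2 / 4 := by
  refine ⟨?_, ?_, ?_, ?_⟩ <;>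
    simp [v3, c3, vr, Real.coe_toNNReal _ (sq_nonneg _)] <;> ring

theorem quad_convex (k : Fin 4 → ℝ) (hk : ∀ i, 0 ≤ k i) (x y : Fin 4 → ℝ) (a b : ℝ) (ha : 0 ≤ a)
    (hb : 0 ≤ b) (hab : a + b = 1) :
    ∑ i, k i * (a * x i + b * y i) ^ 2 ≤ a * (∑ i, k i * (x i) ^ 2) + b * (∑ i, k i * (y i) ^ 2) := by
  rw [Finset.mul_sum, Finset.mul_sum, ← Finset.sum_add_distrib]
  refine Finset.sum_le_sum fun i _ => ?_
  have h1 : (a * x i + b * y i) ^ 2 ≤ a * (x i) ^ 2 + b * (y i) ^ 2 := by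
    have hb' : b = 1 - a := by linarith
    subst hb'
    nlinarith [mul_nonneg (mul_nonneg ha hb) (sq_nonneg (x i - y i))]
  nlinarith [mul_le_mul_of_nonneg_left h1 (hk i)]

theorem slc_gauss (v : Fin 4 → ℝ≥0) (hv : ∀ i, 0 < v i) (K : ℝ) (hK : 0 < K)
    (hvK : ∀ i, (v i : ℝ) ≤ K) (hprob : IsProbabilityMeasure (mk4 v (fun _ => 1))) :
    StronglyLogConcave K⁻¹ (mk4 v (fun _ => 1)) := by
  refine slc_mk4 v hv _ _ (fun _ => one_pos) continuous_const hprob ?_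
  intro x y a b ha hb hab
  have hk : ∀ i, 0 ≤ 1 / (2 * (v i : ℝ)) - K⁻¹ / 2 := by
    intro i
    have h1 : (0 : ℝ) < v i := hv i
    have h2 : K⁻¹ / 2 = 1 / (2 * K) := by field_simp
    rw [h2, sub_nonneg]
    exact one_div_le_one_div_of_le (by positivity) (by linarith [hvK i])
  have := quad_convex _ hk x y a b ha hb hab
  simpa using this

theorem slc_mu1 (α θ : ℝ) (hα : 0 < α) (hθ : 0 < θ) (h : θ ≤ α) :
    StronglyLogConcave (α ^ 2)⁻¹ (mu1 α θ) := by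
  obtain ⟨h0, h1, h2, h3⟩ := v1_val α θ
  have hp := prob_mu1 α θ
  rw [mu1_eq] at hp ⊢
  have hαθ : θ ^ 2 ≤ α ^ 2 := by nlinarith
  refine slc_gauss _ ?_ _ (by positivity) ?_ hp
  · intro i
    have : (0 : ℝ) < v1 α θ i := by
      fin_cases i
      · show (0 : ℝ) < v1 α θ 0; rw [h0]; positivity
      · show (0 : ℝ) < v1 α θ 1; rw [h1]; positivity
      · show (0 : ℝ) < v1 α θ 2; rw [h2]; positivity
      · show (0 : ℝ) < v1 α θ 3; rw [h3]; positivity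
    exact_mod_cast this
  · intro i
    fin_cases i
    · show (v1 α θ 0 : ℝ) ≤ _; rw [h0]
    · show (v1 α θ 1 : ℝ) ≤ _; rw [h1]
    · show (v1 α θ 2 : ℝ) ≤ _; rw [h2]
    · show (v1 α θ 3 : ℝ) ≤ _; rw [h3]; exact hαθ

theorem slc_mu2 (α θ : ℝ) (hα : 0 < α) (hθ : 0 < θ) (h : θ ≤ α) :
    StronglyLogConcave (α ^ 2)⁻¹ (mu2 α θ) := by
  obtain ⟨h0, h1, h2, h3⟩ := v2_val α θ
  have hp := prob_mu2 α θ
  rw [mu2_eq] at hp ⊢
  have hαθ : θ ^ 2 ≤ α ^ 2 := by nlinarith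
  refine slc_gauss _ ?_ _ (by positivity) ?_ hp
  · intro i
    have : (0 : ℝ) < v2 α θ i := by
      fin_cases i
      · show (0 : ℝ) < v2 α θ 0; rw [h0]; positivity
      · show (0 : ℝ) < v2 α θ 1; rw [h1]; positivity
      · show (0 : ℝ) < v2 α θ 2; rw [h2]; positivity
      · show (0 : ℝ) < v2 α θ 3; rw [h3]; positivity
    exact_mod_cast this
  · intro i
    fin_cases i
    · show (v2 α θ 0 : ℝ) ≤ _; rw [h0]
    · show (v2 α θ 1 : ℝ) ≤ _; rw [h1]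
    · show (v2 α θ 2 : ℝ) ≤ _; rw [h2]; exact hαθ
    · show (v2 α θ 3 : ℝ) ≤ _; rw [h3]

theorem slc_mu3 (δ : ℝ) (hδ : 0 < δ) : StronglyLogConcave (4 * δ ^ 2)⁻¹ (mu3 δ) := by
  obtain ⟨h0, h1, h2, h3⟩ := v3_val δ
  have hp := prob_mu3 δ
  rw [mu3_eq δ hδ] at hp ⊢
  have key : ∀ z : Fin 4 → ℝ,
      ∑ i, (1 / (2 * (v3 δ i : ℝ)) - (4 * δ ^ 2)⁻¹ / 2) * (z i) ^ 2 - Real.log (r3 δ z) =
        G3 (z 1 / δ) (z 2 / δ) (z 3 / δ) := by
    intro z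
    rw [Fin.sum_univ_four, h0, h1, h2, h3]
    unfold G3 r3 dens
    have e : (1 / (2 * (4 * δ ^ 2)) - (4 * δ ^ 2)⁻¹ / 2) * z 0 ^ 2 +
        (1 / (2 * δ ^ 2) - (4 * δ ^ 2)⁻¹ / 2) * z 1 ^ 2 +
        (1 / (2 * (δ ^ 2 / 4)) - (4 * δ ^ 2)⁻¹ / 2) * z 2 ^ 2 +
        (1 / (2 * (δ ^ 2 / 4)) - (4 * δ ^ 2)⁻¹ / 2) * z 3 ^ 2 =
        3 / 8 * (z 1 / δ) ^ 2 + 15 / 8 * ((z 2 / δ) ^ 2 + (z 3 / δ) ^ 2) := by
      field_simp
      ring
    rw [e]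
  refine slc_mk4 _ ?_ _ _ (fun z => dens_pos _) (continuous_r3 δ) hp ?_
  · intro i
    have : (0 : ℝ) < v3 δ i := by
      fin_cases i
      · show (0 : ℝ) < v3 δ 0; rw [h0]; positivity
      · show (0 : ℝ) < v3 δ 1; rw [h1]; positivity
      · show (0 : ℝ) < v3 δ 2; rw [h2]; positivity
      · show (0 : ℝ) < v3 δ 3; rw [h3]; positivity
    exact_mod_cast this
  · intro x y a b ha hb hab
    have hxy := key (fun i => a * x i + b * y i)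
    rw [hxy, key x, key y]
    have h := G3_convex (x 1 / δ) (x 2 / δ) (x 3 / δ) (y 1 / δ) (y 2 / δ) (y 3 / δ) a b ha hb hab
    have e : ∀ i, (a * x i + b * y i) / δ = a * (x i / δ) + b * (y i / δ) := by
      intro i; ring
    simp only [e]
    exact h

theorem split_mu1 (α θ : ℝ) : SplitsOff (α ^ 2)⁻¹ (mu1 α θ) e0 := by
  have hp := prob_mu1 α θ
  rw [mu1_eq] at hp ⊢
  refine splitsOff_mk4 _ _ ?_ _ measurable_const (fun _ _ => rfl) hp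
  apply NNReal.eq
  rw [(v1_val α θ).1, inv_inv, Real.coe_toNNReal _ (sq_nonneg _)]

theorem split_mu2 (α θ : ℝ) : SplitsOff (α ^ 2)⁻¹ (mu2 α θ) e0 := by
  have hp := prob_mu2 α θ
  rw [mu2_eq] at hp ⊢
  refine splitsOff_mk4 _ _ ?_ _ measurable_const (fun _ _ => rfl) hp
  apply NNReal.eq
  rw [(v2_val α θ).1, inv_inv, Real.coe_toNNReal _ (sq_nonneg _)]

theorem split_mu3 (δ : ℝ) (hδ : 0 < δ) : SplitsOff (4 * δ ^ 2)⁻¹ (mu3 δ) e0 := by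
  have hp := prob_mu3 δ
  rw [mu3_eq δ hδ] at hp ⊢
  refine splitsOff_mk4 _ _ ?_ _ (continuous_r3 δ).measurable ?_ hp
  · apply NNReal.eq
    rw [(v3_val δ).1, inv_inv, Real.coe_toNNReal _ (by positivity)]
  · intro z t
    simp [r3, dens]

end Pool.Agent.H770Bary
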