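import Pool.Agent.H770Bary.Stab
import Pool.Agent.H770Bary.Cst
import Pool.Agent.H770Bary.Grad
import Pool.Agent.H770Bary.Cut

set_option autoImplicit false

/-! Transfer of the variance of the test function to the barycenter. -/

namespace Pool.Agent.H770Bary

open MeasureTheory ProbabilityTheory Filter Topology Set
open scoped ENNReal NNReal RealInnerProductSpace ContDiff

/-- The test function in the rescaled second variable. -/
noncomputable def tb (δ τ : ℝ) (y : E4) : ℝ :=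
  δ⁻¹ * y 1 + τ * (Real.sin (δ⁻¹ * y 2) * Real.sin (δ⁻¹ * y 3))

theorem continuous_tb (δ τ : ℝ) : Continuous (tb δ τ) := by
  unfold tb; fun_prop

theorem continuous_tf (τ : ℝ) : Continuous (tf τ) := (contDiff_tf τ).continuous

theorem abs_ss_le (u v : ℝ) : |Real.sin u * Real.sin v| ≤ 1 := by
  rw [abs_mul]
  exact mul_le_one₀ (Real.abs_sin_le_one _) (abs_nonneg _) (Real.abs_sin_le_one _)

theorem memLp_tf (τ : ℝ) (m : Measure E4) [IsProbabilityMeasure m]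
    (lm : MemLp (fun y : E4 => y) 2 m) : MemLp (tf τ) 2 m := by
  have h1 := memLp_coord m _ lm 1
  have h2 : MemLp (fun z : E4 => Real.sin (z 2) * Real.sin (z 3)) 2 m := by
    refine MemLp.of_bound (by fun_prop) 1 (Eventually.of_forall fun z => ?_)
    rw [Real.norm_eq_abs]; exact abs_ss_le _ _
  exact h1.add (h2.const_mul τ)

theorem memLp_tb (δ τ : ℝ) (m : Measure E4) [IsProbabilityMeasure m]
    (lm : MemLp (fun y : E4 => y) 2 m) : MemLp (tb δ τ) 2 m := by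
  have h1 := (memLp_coord m _ lm 1).const_mul δ⁻¹
  have h2 : MemLp (fun z : E4 => Real.sin (δ⁻¹ * z 2) * Real.sin (δ⁻¹ * z 3)) 2 m := by
    refine MemLp.of_bound (by fun_prop) 1 (Eventually.of_forall fun z => ?_)
    rw [Real.norm_eq_abs]; exact abs_ss_le _ _
  exact h1.add (h2.const_mul τ)

theorem int_mu3 (δ : ℝ) (f : E4 → ℝ) (hf : Measurable f) :
    ∫ y, f y ∂(mu3 δ) = ∫ z, f (toE (scl (c3 δ) z)) ∂rb := by
  unfold mu3
  have h1 : Measurable fun z : Fin 4 → ℝ => f (toE z) := hf.comp measurable_toE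
  rw [integral_map measurable_toE.aemeasurable hf.aestronglyMeasurable,
    integral_map (measurable_scl _).aemeasurable h1.aestronglyMeasurable]

theorem tb_scl (δ τ : ℝ) (hδ : 0 < δ) (z : Fin 4 → ℝ) :
    tb δ τ (toE (scl (c3 δ) z)) = z 1 + τ * sf z := by
  have h : ∀ x : ℝ, δ⁻¹ * (δ * x) = x := fun x => by field_simp
  simp [tb, scl, c3, sf, h]

theorem diff_sq (x1 x2 x3 y1 y2 y3 τ : ℝ) (h0 : 0 ≤ τ) (h1 : τ ≤ 1) :
    ((y1 + τ * (Real.sin y2 * Real.sin y3)) - (x1 + τ * (Real.sin x2 * Real.sin x3))) ^ 2 ≤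
      3 * ((x1 - y1) ^ 2 + (x2 - y2) ^ 2 + (x3 - y3) ^ 2) := by
  have e : (Real.sin y2 * Real.sin y3) - (Real.sin x2 * Real.sin x3) =
      (Real.sin y2 - Real.sin x2) * Real.sin y3 + Real.sin x2 * (Real.sin y3 - Real.sin x3) := by ring
  have h2 : |(Real.sin y2 * Real.sin y3) - (Real.sin x2 * Real.sin x3)| ≤ |x2 - y2| + |x3 - y3| := by
    rw [e]
    refine (abs_add_le _ _).trans ?_
    rw [abs_mul, abs_mul]
    have a1 := Real.abs_sin_sub_sin_le y2 x2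
    have a2 := Real.abs_sin_sub_sin_le y3 x3
    rw [abs_sub_comm y2 x2] at a1
    rw [abs_sub_comm y3 x3] at a2
    have b1 := Real.abs_sin_le_one y3
    have b2 := Real.abs_sin_le_one x2
    refine add_le_add ?_ ?_
    · calc |Real.sin y2 - Real.sin x2| * |Real.sin y3| ≤ |x2 - y2| * 1 :=
            mul_le_mul a1 b1 (abs_nonneg _) (abs_nonneg _)
        _ = |x2 - y2| := mul_one _
    · calc |Real.sin x2| * |Real.sin y3 - Real.sin x3| ≤ 1 * |x3 - y3| :=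
            mul_le_mul b2 a2 (abs_nonneg _) zero_le_one
        _ = |x3 - y3| := one_mul _
  have h3 : |(y1 + τ * (Real.sin y2 * Real.sin y3)) - (x1 + τ * (Real.sin x2 * Real.sin x3))| ≤
      |x1 - y1| + |x2 - y2| + |x3 - y3| := by
    have e2 : (y1 + τ * (Real.sin y2 * Real.sin y3)) - (x1 + τ * (Real.sin x2 * Real.sin x3)) =
        -(x1 - y1) + τ * ((Real.sin y2 * Real.sin y3) - (Real.sin x2 * Real.sin x3)) := by ring
    rw [e2]
    refine (abs_add_le _ _).trans ?_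
    rw [abs_neg, abs_mul, abs_of_nonneg h0, add_assoc]
    have : τ * |(Real.sin y2 * Real.sin y3) - (Real.sin x2 * Real.sin x3)| ≤
        1 * (|x2 - y2| + |x3 - y3|) := mul_le_mul h1 h2 (abs_nonneg _) zero_le_one
    linarith
  rw [← sq_abs]
  have h4 := pow_le_pow_left₀ (abs_nonneg _) h3 2
  refine h4.trans ?_
  rw [← sq_abs (x1 - y1), ← sq_abs (x2 - y2), ← sq_abs (x3 - y3)]
  nlinarith [sq_nonneg (|x1 - y1| - |x2 - y2|), sq_nonneg (|x1 - y1| - |x3 - y3|),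
    sq_nonneg (|x2 - y2| - |x3 - y3|)]

theorem var_lower (δ τ s : ℝ) (hδ : 0 < δ) (h0 : 0 ≤ τ) (h1 : τ ≤ 1) (hs : 0 < s) (m : Measure E4)
    [IsProbabilityMeasure m] (π : Measure (E4 × E4)) [IsProbabilityMeasure π]
    (h : π.map Prod.fst = m) (h' : π.map Prod.snd = mu3 δ) (lm : MemLp (fun y : E4 => y) 2 m) :
    1 + 2 * τ * cst ≤ (1 + s) * Var[tf τ; m] + (1 + 1 / s) *
      (3 * ((∫ p, (p.1 1 - δ⁻¹ * p.2 1) ^ 2 ∂π) + (∫ p, (p.1 2 - δ⁻¹ * p.2 2) ^ 2 ∂π) +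
      (∫ p, (p.1 3 - δ⁻¹ * p.2 3) ^ 2 ∂π))) := by
  have l3 : MemLp (fun y : E4 => y) 2 (mu3 δ) := (memLp_of_coord _ _ (mu3_lintegral_sq δ)).1
  have lf := memLp_fst π m h lm
  have ls := memLp_snd π _ h' l3
  have hp3 := prob_mu3 δ
  -- square integrability
  have la : MemLp (fun p : E4 × E4 => tf τ p.1) 2 π := by
    have := memLp_tf τ m lm
    rw [← h] at this
    exact (memLp_map_measure_iff (continuous_tf τ).aestronglyMeasurable (by fun_prop)).1 this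
  have lb : MemLp (fun p : E4 × E4 => tb δ τ p.2) 2 π := by
    have := memLp_tb δ τ _ l3
    rw [← h'] at this
    exact (memLp_map_measure_iff (continuous_tb δ τ).aestronglyMeasurable (by fun_prop)).1 this
  -- moments of tb
  have eb : ∫ p, tb δ τ p.2 ∂π = 0 := by
    rw [int_snd π _ h' (tb δ τ) (continuous_tb δ τ).measurable, int_mu3 δ _ (continuous_tb δ τ).measurable]
    simp_rw [tb_scl δ τ hδ]
    exact mean0 τ
  have eb2 : 1 + 2 * τ * cst ≤ ∫ p, (tb δ τ p.2) ^ 2 ∂π := by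
    have hm : Measurable fun y : E4 => (tb δ τ y) ^ 2 := ((continuous_tb δ τ).pow 2).measurable
    rw [int_snd π _ h' (fun y => (tb δ τ y) ^ 2) hm, int_mu3 δ (fun y => (tb δ τ y) ^ 2) hm]
    simp_rw [tb_scl δ τ hδ]
    exact secmom τ
  set A : ℝ := ∫ z, tf τ z ∂m with hA
  have hvar : Var[tf τ; m] = ∫ p, (tf τ p.1 - A) ^ 2 ∂π := by
    rw [variance_eq_integral (continuous_tf τ).aemeasurable,
      int_fst π m h (fun z => (tf τ z - A) ^ 2) (((continuous_tf τ).sub continuous_const).pow 2).measurable]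
  -- the three integrals
  have lA : MemLp (fun _ : E4 × E4 => A) 2 π := memLp_const A
  have i1 : Integrable (fun p : E4 × E4 => (tb δ τ p.2 - A) ^ 2) π := (lb.sub lA).integrable_sq
  have i2 : Integrable (fun p : E4 × E4 => (1 + s) * (tf τ p.1 - A) ^ 2) π :=
    (la.sub lA).integrable_sq.const_mul _
  have j : ∀ k : Fin 4, Integrable (fun p : E4 × E4 => (p.1 k - δ⁻¹ * p.2 k) ^ 2) π := fun k =>
    ((memLp_coord π _ lf k).sub ((memLp_coord π _ ls k).const_mul δ⁻¹)).integrable_sq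
  have i3 : Integrable (fun p : E4 × E4 => (1 + 1 / s) * (3 * ((p.1 1 - δ⁻¹ * p.2 1) ^ 2 +
      (p.1 2 - δ⁻¹ * p.2 2) ^ 2 + (p.1 3 - δ⁻¹ * p.2 3) ^ 2))) π :=
    ((((j 1).add (j 2)).add (j 3)).const_mul 3).const_mul _
  have hle : ∫ p, (tb δ τ p.2 - A) ^ 2 ∂π ≤ ∫ p, ((1 + s) * (tf τ p.1 - A) ^ 2 +
      (1 + 1 / s) * (3 * ((p.1 1 - δ⁻¹ * p.2 1) ^ 2 +
      (p.1 2 - δ⁻¹ * p.2 2) ^ 2 + (p.1 3 - δ⁻¹ * p.2 3) ^ 2))) ∂π := by
    refine integral_mono i1 (i2.add i3) fun p => ?_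
    simp only
    have hd := diff_sq (p.1 1) (p.1 2) (p.1 3) (δ⁻¹ * p.2 1) (δ⁻¹ * p.2 2) (δ⁻¹ * p.2 3) τ h0 h1
    have hd' : (tb δ τ p.2 - tf τ p.1) ^ 2 ≤ 3 * ((p.1 1 - δ⁻¹ * p.2 1) ^ 2 +
      (p.1 2 - δ⁻¹ * p.2 2) ^ 2 + (p.1 3 - δ⁻¹ * p.2 3) ^ 2) := hd
    have hyoung : (tb δ τ p.2 - A) ^ 2 ≤ (1 + s) * (tf τ p.1 - A) ^ 2 +
        (1 + 1 / s) * (tb δ τ p.2 - tf τ p.1) ^ 2 := by
      set x := tf τ p.1 - A
      set y := tb δ τ p.2 - tf τ p.1
      have e : tb δ τ p.2 - A = x + y := by simp only [x, y]; ring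
      rw [e]
      have : (1 + s) * x ^ 2 + (1 + 1 / s) * y ^ 2 - (x + y) ^ 2 = (s * x - y) ^ 2 / s := by
        field_simp; ring
      have h5 : 0 ≤ (s * x - y) ^ 2 / s := by positivity
      linarith
    have hmul : (1 + 1 / s) * (tb δ τ p.2 - tf τ p.1) ^ 2 ≤ (1 + 1 / s) * (3 * ((p.1 1 - δ⁻¹ * p.2 1) ^ 2 +
      (p.1 2 - δ⁻¹ * p.2 2) ^ 2 + (p.1 3 - δ⁻¹ * p.2 3) ^ 2)) :=
      mul_le_mul_of_nonneg_left hd' (by positivity)
    linarith
  have j12 : Integrable (fun p : E4 × E4 => (p.1 1 - δ⁻¹ * p.2 1) ^ 2 +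
      (p.1 2 - δ⁻¹ * p.2 2) ^ 2) π := (j 1).add (j 2)
  rw [integral_add i2 i3, integral_const_mul, integral_const_mul, integral_const_mul,
    integral_add j12 (j 3), integral_add (j 1) (j 2), ← hvar] at hle
  refine le_trans ?_ hle
  refine eb2.trans ?_
  have e4 : ∫ p, (tb δ τ p.2 - A) ^ 2 ∂π = ∫ p, (tb δ τ p.2) ^ 2 ∂π + A ^ 2 := by
    have i4 : Integrable (fun p : E4 × E4 => (tb δ τ p.2) ^ 2) π := lb.integrable_sq
    have i5 : Integrable (fun p : E4 × E4 => -(2 * A) * (tb δ τ p.2)) π :=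
      (lb.integrable (by norm_num)).const_mul _
    have i6 : Integrable (fun _ : E4 × E4 => A ^ 2) π := integrable_const _
    have e5 : ∫ p, (tb δ τ p.2 - A) ^ 2 ∂π =
        ∫ p, ((tb δ τ p.2) ^ 2 + -(2 * A) * (tb δ τ p.2) + A ^ 2) ∂π := by
      refine integral_congr_ae (Eventually.of_forall fun p => ?_)
      simp only; ring
    have i45 : Integrable (fun p : E4 × E4 => (tb δ τ p.2) ^ 2 + -(2 * A) * (tb δ τ p.2)) π := i4.add i5
    rw [e5, integral_add i45 i6, integral_add i4 i5, integral_const_mul, eb]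
    simp
  rw [e4]
  nlinarith [sq_nonneg A]

end Pool.Agent.H770Bary
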